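import Pool.Agent.Lib.BSDP.R.Defs

/-!
Module R.Char. The quadratic residue symbols in `k[t]` and the resultant.

* `mem_primesOf`: `UniqueFactorizationMonoid.mem_normalizedFactors_iff'`-like facts,
  `Polynomial` monic = normalized (`Polynomial.normalize_monic`, `Polynomial.monic_normalize`).
* `sgn_mul`: if `2 = 0` in `k` every element is a square (`FiniteField.isSquare_of_char_two`), else
  `sgn` is Mathlib's `quadraticChar` (`quadraticChar_eq_one_iff`, ...; choose `Fintype.ofFinite`), or:
  by Euler's criterion `FiniteField.isSquare_iff`.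
* `sgn_pow_eq`: Euler's criterion in the form used below: for `K` a finite field with `2 ≠ 0`, `x ≠ 0`:
  `IsSquare x ↔ x ^ (#K / 2) = 1` (`FiniteField.isSquare_iff`).
* `chiP_mul`: `AdjoinRoot π` is a finite field (`AdjoinRoot.instField` with `Fact (Irreducible π)`;
  finite as in `Places.residue_finite`), `chiP π f = sgn (AdjoinRoot.mk π f)`
  (`AdjoinRoot.mk_eq_zero`).
* `chiP_eq_resultant`: let `d = deg π`, `q = #k`, `L = AdjoinRoot π`, `β` its root. In `L` the
  polynomial `π` splits with roots `β, β^q, ..., β^(q^(d-1))` (or use `Algebra.norm`: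
  `Polynomial.resultant_eq_prod_eval`/`Algebra.norm_eq_prod_roots`-like; one has
  `algebraMap k L (resultant π f) = ∏_{i < d} f (β^(q^i)) = ∏ (f β)^(q^i) = (f β)^((q^d - 1)/(q - 1))`;
  also `FiniteField.algebraMap_norm_eq_prod_pow`/`FiniteField.norm`-like lemmas may exist: the norm of
  `x ∈ L` is `x ^ ((#L - 1)/(#k - 1))`). If `π ∣ f` both sides are `0`. Otherwise with `N` the
  resultant: `N` is a square in `k` iff `N ^ ((q-1)/2) = 1` iff `(f β) ^ ((q^d - 1)/2) = 1` iff
  `f β` is a square in `L`.
-/

set_option autoImplicit false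

open Polynomial Pool.Agent.BSDFF

namespace Pool.Agent.BSDP.R

variable {k : Type} [Field k]

theorem mem_primesOf {f π : k[X]} (hf : f ≠ 0) :
    π ∈ primesOf f ↔ π.Monic ∧ Irreducible π ∧ π ∣ f := by
  classical
  unfold primesOf
  rw [Multiset.mem_toFinset, UniqueFactorizationMonoid.mem_normalizedFactors_iff' hf]
  constructor
  · rintro ⟨h1, h2, h3⟩
    refine ⟨?_, h1, h3⟩
    rw [← h2]
    exact monic_normalize h1.ne_zero
  · rintro ⟨h1, h2, h3⟩
    exact ⟨h2, h1.normalize_eq_self, h3⟩

private theorem char_sgn_eq [Fintype k] [DecidableEq k] (x : k) : sgn x = quadraticChar k x := by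
  unfold sgn
  by_cases h0 : x = 0
  · rw [if_pos h0, h0]
    exact quadraticChar_zero.symm
  · rw [if_neg h0]
    by_cases h1 : IsSquare x
    · rw [if_pos h1]
      exact ((quadraticChar_one_iff_isSquare h0).2 h1).symm
    · rw [if_neg h1]
      exact (quadraticChar_neg_one_iff_not_isSquare.2 h1).symm

/-- The quadratic character of a finite field is multiplicative. -/
theorem sgn_mul [Finite k] (x y : k) : sgn (x * y) = sgn x * sgn y := by
  classical
  have := Fintype.ofFinite k
  rw [char_sgn_eq, char_sgn_eq, char_sgn_eq, map_mul]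

private theorem char_finite [Finite k] {π : k[X]} (hπ : Irreducible π) :
    Finite (AdjoinRoot π) := by
  have h0 : π ≠ 0 := hπ.ne_zero
  have : Module.Finite k (AdjoinRoot π) := (AdjoinRoot.powerBasis h0).finite
  exact Module.finite_of_finite k

private theorem char_chiP {π : k[X]} [Fact (Irreducible π)] (f : k[X]) :
    chiP π f = sgn (AdjoinRoot.mk π f) := by
  classical
  unfold chiP sgn
  by_cases h : π ∣ f
  · rw [if_pos h, if_pos (AdjoinRoot.mk_eq_zero.2 h)]
  · rw [if_neg h, if_neg (fun h' => h (AdjoinRoot.mk_eq_zero.1 h'))]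

theorem chiP_mul [Finite k] {π : k[X]} (hπ : Irreducible π) (f g : k[X]) :
    chiP π (f * g) = chiP π f * chiP π g := by
  have := Fact.mk hπ
  have := char_finite hπ
  rw [char_chiP, char_chiP, char_chiP, map_mul, sgn_mul]

private theorem char_norm [Finite k] {π : k[X]} (hπ : Irreducible π) (hm : π.Monic) (f : k[X]) :
    resultant π f = Algebra.norm k (AdjoinRoot.mk π f) := by
  classical
  have hF := Fact.mk hπ
  have hfin := char_finite hπ
  have h0 : π ≠ 0 := hπ.ne_zero
  let pb := AdjoinRoot.powerBasis h0
  have hfd : Module.Finite k (AdjoinRoot π) := pb.finite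
  have hgen : pb.gen = AdjoinRoot.root π := AdjoinRoot.powerBasis_gen h0
  have hmin : minpoly k pb.gen = π := by
    rw [hgen, AdjoinRoot.minpoly_root h0, hm.leadingCoeff, inv_one, C_1, mul_one]
  have hsep : IsSeparable k pb.gen := Algebra.IsSeparable.isSeparable k pb.gen
  let E := AlgebraicClosure (AdjoinRoot π)
  have hinj : Function.Injective (algebraMap k E) := (algebraMap k E).injective
  apply hinj
  rw [Algebra.norm_eq_prod_embeddings k E]
  have h1 : algebraMap k E (resultant π f) =
      ((π.map (algebraMap k E)).roots.map (f.map (algebraMap k E)).eval).prod := by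
    have h := resultant_eq_prod_eval (π.map (algebraMap k E)) (f.map (algebraMap k E))
      f.natDegree (natDegree_map_le) (IsAlgClosed.splits _)
    rw [natDegree_map, (hm.map _).leadingCoeff, one_pow, one_mul] at h
    rw [← h, resultant_map_map]
  rw [h1]
  have h2 : ∀ σ : AdjoinRoot π →ₐ[k] E, σ (AdjoinRoot.mk π f) =
      (f.map (algebraMap k E)).eval (σ pb.gen) := by
    intro σ
    rw [← AdjoinRoot.aeval_eq, ← aeval_algHom_apply, hgen, eval_map_algebraMap]
  rw [Finset.prod_congr rfl (fun σ _ => h2 σ)]
  rw [@Fintype.prod_equiv (AdjoinRoot π →ₐ[k] E) _ _ _ _ _ pb.liftEquiv'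
    (fun σ => (f.map (algebraMap k E)).eval (σ pb.gen))
    (fun x => (f.map (algebraMap k E)).eval x.1) (fun σ => by simp only [PowerBasis.liftEquiv'_apply_coe])]
  rw [Finset.prod_mem_multiset _ _ (fun x => (f.map (algebraMap k E)).eval x) (fun x => rfl)]
  rw [Finset.prod_eq_multiset_prod, Multiset.toFinset_val, Multiset.dedup_eq_self.mpr, aroots_def, hmin]
  exact nodup_roots (Separable.map hsep)

/-- The norm from `AdjoinRoot π` to `k`, for `π` monic and irreducible, is the resultant with `π`, and
it is a power. -/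
theorem resultant_eq_pow [Finite k] {π : k[X]} (hπ : Irreducible π) (hm : π.Monic) (f : k[X]) :
    AdjoinRoot.of π (resultant π f) =
      (AdjoinRoot.mk π f) ^ ((Nat.card k ^ π.natDegree - 1) / (Nat.card k - 1)) := by
  have hF := Fact.mk hπ
  have hfin := char_finite hπ
  have h0 : π ≠ 0 := hπ.ne_zero
  have hfd : Module.Finite k (AdjoinRoot π) := (AdjoinRoot.powerBasis h0).finite
  have hc : Nat.card (AdjoinRoot π) = Nat.card k ^ π.natDegree := by
    rw [Module.natCard_eq_pow_finrank (K := k), (AdjoinRoot.powerBasis h0).finrank,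
      AdjoinRoot.powerBasis_dim]
  have h := FiniteField.algebraMap_norm_eq_pow (K := k) (x := AdjoinRoot.mk π f)
  rw [← char_norm hπ hm f, hc] at h
  exact h

theorem chiP_eq_resultant [Finite k] (h2 : (2 : k) ≠ 0) {π : k[X]} (hπ : Irreducible π)
    (hm : π.Monic) (f : k[X]) : chiP π f = sgn (resultant π f) := by
  classical
  have hF := Fact.mk hπ
  have hfin := char_finite hπ
  have h0 : π ≠ 0 := hπ.ne_zero
  have hfd : Module.Finite k (AdjoinRoot π) := (AdjoinRoot.powerBasis h0).finite
  have hc : Nat.card (AdjoinRoot π) = Nat.card k ^ π.natDegree := by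
    rw [Module.natCard_eq_pow_finrank (K := k), (AdjoinRoot.powerBasis h0).finrank,
      AdjoinRoot.powerBasis_dim]
  have hpow := resultant_eq_pow hπ hm f
  have hinj : Function.Injective (AdjoinRoot.of π) := (AdjoinRoot.of π).injective
  set N := resultant π f with hN
  set y := AdjoinRoot.mk π f with hy
  set q := Nat.card k with hq
  have hq1 : 1 < q := Finite.one_lt_card
  have hd : π.natDegree ≠ 0 := hπ.natDegree_pos.ne'
  obtain ⟨e, he⟩ : q - 1 ∣ q ^ π.natDegree - 1 := by
    have := Nat.sub_dvd_pow_sub_pow q 1 π.natDegree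
    rwa [one_pow] at this
  have hqd : 1 < q ^ π.natDegree := Nat.one_lt_pow hd hq1
  have he0 : e ≠ 0 := by
    rintro rfl
    rw [mul_zero] at he
    omega
  have hdiv : (q ^ π.natDegree - 1) / (q - 1) = e := by
    rw [he]
    exact Nat.mul_div_cancel_left e (by omega)
  rw [hdiv] at hpow
  have hzero : N = 0 ↔ y = 0 := by
    constructor
    · intro h
      rw [h, map_zero] at hpow
      exact pow_eq_zero_iff he0 |>.1 hpow.symm
    · intro h
      rw [h, zero_pow he0] at hpow
      exact hinj (by rw [hpow, map_zero])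
  have hck : ringChar k ≠ 2 := by
    intro h
    apply h2
    have := (ringChar.spec k 2).2 (by rw [h])
    exact_mod_cast this
  have h2L : (2 : AdjoinRoot π) ≠ 0 := by
    intro h
    apply h2
    apply hinj
    rw [map_ofNat, map_zero]
    exact h
  have hcL : ringChar (AdjoinRoot π) ≠ 2 := by
    intro h
    apply h2L
    have := (ringChar.spec (AdjoinRoot π) 2).2 (by rw [h])
    exact_mod_cast this
  have hfk := Fintype.ofFinite k
  have hfL := Fintype.ofFinite (AdjoinRoot π)
  rw [char_chiP]
  unfold sgn
  by_cases hy0 : y = 0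
  · rw [if_pos hy0, if_pos (hzero.2 hy0)]
  · have hN0 : N ≠ 0 := fun h => hy0 (hzero.1 h)
    rw [if_neg hy0, if_neg hN0]
    have hiff : IsSquare y ↔ IsSquare N := by
      rw [FiniteField.isSquare_iff hcL hy0, FiniteField.isSquare_iff hck hN0,
        ← Nat.card_eq_fintype_card, ← Nat.card_eq_fintype_card, hc]
      have hodd : q % 2 = 1 := by
        rw [hq, Nat.card_eq_fintype_card]
        exact FiniteField.odd_card_of_char_ne_two hck
      have hodd2 : (q ^ π.natDegree) % 2 = 1 := by
        have : Odd (q ^ π.natDegree) := (Nat.odd_iff.2 hodd).pow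
        exact Nat.odd_iff.1 this
      have hexp : e * (q / 2) = q ^ π.natDegree / 2 := by
        have h1 : q - 1 = 2 * (q / 2) := by omega
        have h3 : q ^ π.natDegree - 1 = 2 * (q ^ π.natDegree / 2) := by omega
        have h4 : 2 * (q ^ π.natDegree / 2) = 2 * (e * (q / 2)) := by
          rw [← h3, he]
          calc (q - 1) * e = (2 * (q / 2)) * e := by rw [← h1]
            _ = 2 * (e * (q / 2)) := by ring
        omega
      have h5 : AdjoinRoot.of π (N ^ (q / 2)) = y ^ (q ^ π.natDegree / 2) := by
        rw [map_pow, hpow, ← pow_mul, hexp]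
      rw [← h5]
      constructor
      · intro h
        exact hinj (by rw [h, map_one])
      · intro h
        rw [h, map_one]
    by_cases hs : IsSquare y
    · rw [if_pos hs, if_pos (hiff.1 hs)]
    · rw [if_neg hs, if_neg (fun h => hs (hiff.2 h))]

end Pool.Agent.BSDP.R
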