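import Pool.Agent.Lib.BSDP.R.Defs

/-!
Module R.Congr. Change of variables in ternary forms.

* `isotropic_congr`: `x ⬝ᵥ ((c • (Pᵀ G P)) x) = c * ((P x) ⬝ᵥ G (P x))` (`Matrix.dotProduct_mulVec`,
  `Matrix.vecMul_transpose`, `Matrix.mulVec_mulVec`); a zero `x` of the left form gives the zero `P x`
  (nonzero by `Matrix.mulVec_injective`/`Matrix.eq_zero_of_mulVec_eq_zero hP`), a zero `y` of `G` gives
  `P⁻¹ y`.
* `iso_diagonal_iff`: expand (`Matrix.mulVec_diagonal`, `Fin.sum_univ_three`), `x = ![x, y, z]`.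
* `IsoAt.congr`: map the identity by `v.toCompletion` (`Matrix.map_mul`, `Matrix.transpose_map`,
  `RingHom.map_det`, `Matrix.map_smul`), the determinant of the image of `P` is not zero as a ring
  homomorphism of fields is injective.
* `isoAt_diagP_iff`: `iso_diagonal_iff` and `Matrix.diagonal_map`; the two symmetries from it.
-/

set_option autoImplicit false

open Polynomial Pool.Agent.BSDFF

namespace Pool.Agent.BSDP.R

private theorem congr_form {F : Type} [Field F] (G P : Matrix (Fin 3) (Fin 3) F) (c : F)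
    (x : Fin 3 → F) : x ⬝ᵥ ((c • (P.transpose * G * P)).mulVec x) =
      c * ((P.mulVec x) ⬝ᵥ (G.mulVec (P.mulVec x))) := by
  rw [Matrix.smul_mulVec, dotProduct_smul, smul_eq_mul, ← Matrix.mulVec_mulVec,
    ← Matrix.mulVec_mulVec, Matrix.dotProduct_mulVec, Matrix.vecMul_transpose]

theorem isotropic_congr {F : Type} [Field F] (G P : Matrix (Fin 3) (Fin 3) F) (hP : P.det ≠ 0) (c : F)
    (hc : c ≠ 0) : Isotropic (c • (P.transpose * G * P)) ↔ Isotropic G := by
  constructor
  · rintro ⟨x, hx, h⟩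
    refine ⟨P.mulVec x, fun h0 => hx (Matrix.eq_zero_of_mulVec_eq_zero hP h0), ?_⟩
    rw [congr_form] at h
    exact (mul_eq_zero.1 h).resolve_left hc
  · rintro ⟨y, hy, h⟩
    have hu : IsUnit P.det := isUnit_iff_ne_zero.2 hP
    have h1 : P.mulVec (P⁻¹.mulVec y) = y := by
      rw [Matrix.mulVec_mulVec, Matrix.mul_nonsing_inv P hu, Matrix.one_mulVec]
    refine ⟨P⁻¹.mulVec y, fun h0 => hy ?_, ?_⟩
    · rw [← h1, h0, Matrix.mulVec_zero]
    · rw [congr_form, h1, h, mul_zero]

theorem iso_diagonal_iff {F : Type} [Field F] (a b c : F) :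
    Isotropic (Matrix.diagonal ![a, b, c]) ↔
      ∃ x y z : F, (x ≠ 0 ∨ y ≠ 0 ∨ z ≠ 0) ∧ a * x ^ 2 + b * y ^ 2 + c * z ^ 2 = 0 := by
  constructor
  · rintro ⟨x, hx, h⟩
    refine ⟨x 0, x 1, x 2, ?_, ?_⟩
    · by_contra hcon
      push Not at hcon
      apply hx
      ext i
      fin_cases i
      · exact hcon.1
      · exact hcon.2.1
      · exact hcon.2.2
    · simp only [dotProduct, Matrix.mulVec_diagonal, Fin.sum_univ_three] at h
      simp at h
      rw [← h]
      ring
  · rintro ⟨x, y, z, hx, h⟩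
    refine ⟨![x, y, z], ?_, ?_⟩
    · intro h0
      have h1 := congrFun h0 0
      have h2 := congrFun h0 1
      have h3 := congrFun h0 2
      simp at h1 h2 h3
      rcases hx with hx | hx | hx
      · exact hx h1
      · exact hx h2
      · exact hx h3
    · simp only [dotProduct, Matrix.mulVec_diagonal, Fin.sum_univ_three]
      simp
      rw [← h]
      ring

variable {k : Type} [Field k]

theorem IsoAt.congr (v : Place k (RatFunc k))
    (G P : Matrix (Fin 3) (Fin 3) (RatFunc k)) (hP : P.det ≠ 0) (c : RatFunc k) (hc : c ≠ 0) :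
    IsoAt v (c • (P.transpose * G * P)) ↔ IsoAt v G := by
  unfold IsoAt
  have h1 : (c • (P.transpose * G * P)).map v.toCompletion = v.toCompletion c •
      ((P.map v.toCompletion).transpose * G.map v.toCompletion * P.map v.toCompletion) := by
    rw [← Matrix.transpose_map, ← Matrix.map_mul, ← Matrix.map_mul]
    ext i j
    simp only [Matrix.map_apply, Matrix.smul_apply, smul_eq_mul, map_mul]
  rw [h1]
  refine isotropic_congr _ _ ?_ _ ?_
  · have h2 : (P.map v.toCompletion).det = v.toCompletion P.det := (RingHom.map_det _ P).symm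
    rw [h2]
    exact (map_ne_zero v.toCompletion).2 hP
  · exact (map_ne_zero v.toCompletion).2 hc

theorem isoAt_diagP_iff (v : Place k (RatFunc k)) (a b e : k[X]) :
    IsoAt v (diagP a b e) ↔ ∃ x y z : v.ring.valuation.Completion, (x ≠ 0 ∨ y ≠ 0 ∨ z ≠ 0) ∧
      v.toCompletion (cc a) * x ^ 2 + v.toCompletion (cc b) * y ^ 2 +
      v.toCompletion (cc e) * z ^ 2 = 0 := by
  unfold IsoAt
  have h1 : (diagP a b e).map v.toCompletion = Matrix.diagonal ![v.toCompletion (cc a),
      v.toCompletion (cc b), v.toCompletion (cc e)] := by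
    unfold diagP
    rw [Matrix.diagonal_map (map_zero _)]
    congr 1
    ext i
    fin_cases i <;> rfl
  rw [h1]
  exact iso_diagonal_iff _ _ _

/-- the form does not depend on the order of the coefficients -/
theorem isoAt_diagP_swap (v : Place k (RatFunc k)) (a b e : k[X]) :
    IsoAt v (diagP a b e) ↔ IsoAt v (diagP b a e) := by
  rw [isoAt_diagP_iff, isoAt_diagP_iff]
  constructor
  · rintro ⟨x, y, z, h, h2⟩
    exact ⟨y, x, z, by tauto, by rw [← h2]; ring⟩
  · rintro ⟨x, y, z, h, h2⟩
    exact ⟨y, x, z, by tauto, by rw [← h2]; ring⟩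

theorem isoAt_diagP_rot (v : Place k (RatFunc k)) (a b e : k[X]) :
    IsoAt v (diagP a b e) ↔ IsoAt v (diagP b e a) := by
  rw [isoAt_diagP_iff, isoAt_diagP_iff]
  constructor
  · rintro ⟨x, y, z, h, h2⟩
    exact ⟨y, z, x, by tauto, by rw [← h2]; ring⟩
  · rintro ⟨x, y, z, h, h2⟩
    exact ⟨z, x, y, by tauto, by rw [← h2]; ring⟩

end Pool.Agent.BSDP.R
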