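import Pool.Agent.Lib.BSDP.Def

/-!
Block R of the project a positive proportion of all elliptic curves over `k(t)` has trivial
2-Selmer group: ternary quadratic forms over `k(t)` and their zeros over the completions.

The closed points `v` of the projective line are `Place k (RatFunc k)` (file
`Lib/MP_48b749_nt/Defs.lean`), classified in `Places.lean` (`placeOf π hπ`) and `Infty.lean`
(`placeInfty k`); the completion at `v` is `v.ring.valuation.Completion`, the embedding is
`v.toCompletion` (`Odd/Defs.lean`). `Loc`, `LocAt`, `Isotropic` are in `BSDP/Def.lean`.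
-/

set_option autoImplicit false

open Polynomial Pool.Agent.BSDFF

namespace Pool.Agent.BSDP.R

/-- The ternary form over `k(t)` with Gram matrix `G` has a nontrivial zero over the completion at
`v`. -/
def IsoAt {k : Type} [Field k] (v : Place k (RatFunc k)) (G : Matrix (Fin 3) (Fin 3) (RatFunc k)) :
    Prop :=
  Isotropic (G.map v.toCompletion)

/-- The quadratic residue symbol of `f` modulo `π`: `0` if `π ∣ f`, `1` if `f` is a square modulo
`π` and `-1` otherwise. -/
noncomputable def chiP {k : Type} [Field k] (π f : k[X]) : ℤ :=
  open Classical in if π ∣ f then 0 else if IsSquare (AdjoinRoot.mk π f) then 1 else -1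

/-- The quadratic character of a field. -/
noncomputable def sgn {F : Type} [Field F] (x : F) : ℤ :=
  open Classical in if x = 0 then 0 else if IsSquare x then 1 else -1

/-- The monic irreducible divisors of `f`. -/
noncomputable def primesOf {k : Type} [Field k] (f : k[X]) : Finset k[X] :=
  open Classical in (UniqueFactorizationMonoid.normalizedFactors f).toFinset

/-- The diagonal form `a x² + b y² + e z²` with polynomial coefficients. -/
noncomputable def diagP {k : Type} [Field k] (a b e : k[X]) : Matrix (Fin 3) (Fin 3) (RatFunc k) :=
  Matrix.diagonal ![cc a, cc b, cc e]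

/-- The Hilbert sign at infinity of the form `a x² + b y² + e z²`. -/
noncomputable def sgnInf {k : Type} [Field k] (a b e : k[X]) : ℤ :=
  sgn (-1 : k) ^ (a.natDegree * b.natDegree + b.natDegree * e.natDegree +
      a.natDegree * e.natDegree + a.natDegree + b.natDegree + e.natDegree) *
    sgn a.leadingCoeff ^ (b.natDegree + e.natDegree) *
    sgn b.leadingCoeff ^ (a.natDegree + e.natDegree) *
    sgn e.leadingCoeff ^ (a.natDegree + b.natDegree)

/-- The properties of a complete discretely valued field with finite residue field of odd
characteristic which we use. -/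
structure LocSq {F Γ : Type} [Field F] [LinearOrderedCommGroupWithZero Γ] (V : Valuation F Γ)
    (ϖ : F) : Prop where
  unif_ne : ϖ ≠ 0
  unif_lt : V ϖ < 1
  unif : ∀ x : F, x ≠ 0 → ∃ n : ℤ, V x = V ϖ ^ n
  two : V 2 = 1
  near : ∀ u : F, V (u - 1) < 1 → IsSquare u
  nonsq : ∀ x y : F, V x = 1 → V y = 1 → ¬ IsSquare x → ¬ IsSquare y → IsSquare (x * y)
  repr : ∀ a b : F, V a = 1 → V b = 1 → ∃ x y : F, a * x ^ 2 + b * y ^ 2 = 1

/-- The values of `a` and `b` agree modulo squares of values. -/
def SameClass {F Γ : Type} [Field F] [LinearOrderedCommGroupWithZero Γ] (V : Valuation F Γ)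
    (a b : F) : Prop := ∃ s : F, V (a * b) = V s ^ 2

end Pool.Agent.BSDP.R
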