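import Pool.Agent.Lib.BSDP.R.Defs

/-!
Module R.Diag. Diagonalization of ternary forms over `k(t)` with squarefree pairwise coprime
polynomials.

* `exists_diag_field`: over a field of characteristic not `2` a symmetric matrix is congruent to a
  diagonal one (`QuadraticMap`: `LinearMap.BilinForm.exists_orthogonal_basis` for `Matrix.toBilin'`,
  or `Matrix.IsSymm` by hand for `3 × 3`).
* `exists_squarefree`: a nonzero element of `k(t)` is a squarefree polynomial times the square of a
  nonzero element (`num * denom / denom ^ 2`, `Nat.sq_mul_squarefree`-like: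
  `UniqueFactorizationMonoid` induction, or `Polynomial` strong induction on the degree: if `f` is not
  squarefree, `f = p² g` with `deg g < deg f`).
* `exists_coprime_diag`: start with `exists_diag_field` and make the coefficients squarefree
  polynomials `a, b, e`; strong induction on `deg a + deg b + deg e` for the statement that a diagonal
  matrix with squarefree coefficients is, up to a scalar and a change of variables, one with squarefree
  pairwise coprime coefficients: if an irreducible `π` divides two of them, say `a = π a'`,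
  `b = π b'`: then `π * diag (a, b, e) = diag (a' π², b' π², π e)`; if `π ∤ e` then `π e` is squarefree
  and the new degrees `deg a - d`, `deg b - d`, `deg e + d` have a smaller sum; if `e = π e'` then
  dividing the form by `π` gives `a', b', e'`. Choose a formulation which is symmetric in the three
  coefficients (permutation matrices as `P`), e.g. an inductive relation or the set of the triples
  reachable; `P` and `c` multiply along the way:
  `c' • (P'ᵀ (c • (Pᵀ G P)) P') = (c' c) • ((P P')ᵀ G (P P'))`.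
-/

set_option autoImplicit false

open Polynomial Pool.Agent.BSDFF

namespace Pool.Agent.BSDP.R

theorem exists_diag_field {F : Type} [Field F] (h2 : (2 : F) ≠ 0) (G : Matrix (Fin 3) (Fin 3) F)
    (hs : G.IsSymm) (hd : G.det ≠ 0) :
    ∃ (P : Matrix (Fin 3) (Fin 3) F) (a b e : F), P.det ≠ 0 ∧ a ≠ 0 ∧ b ≠ 0 ∧ e ≠ 0 ∧
      P.transpose * G * P = Matrix.diagonal ![a, b, e] := by
  classical
  have : Invertible (2 : F) := invertibleOfNonzero h2
  have hsym : LinearMap.IsSymm (Matrix.toBilin' G) := by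
    constructor
    intro x y
    rw [RingHom.id_apply, Matrix.toBilin'_apply', Matrix.toBilin'_apply',
      Matrix.dotProduct_mulVec, ← Matrix.mulVec_transpose, hs.eq, dotProduct_comm]
  obtain ⟨v0, hv0⟩ := LinearMap.BilinForm.exists_orthogonal_basis hsym
  have hfr : Module.finrank F (Fin 3 → F) = 3 := by simp
  set v : Module.Basis (Fin 3) F (Fin 3 → F) := v0.reindex (finCongr hfr) with hv
  have hort : ∀ i j, i ≠ j → Matrix.toBilin' G (v i) (v j) = 0 := by
    intro i j hij
    rw [hv, Module.Basis.reindex_apply, Module.Basis.reindex_apply]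
    refine hv0 (fun e => hij ?_)
    exact (finCongr hfr).symm.injective e
  set P : Matrix (Fin 3) (Fin 3) F := (Pi.basisFun F (Fin 3)).toMatrix v with hP
  have hPapp : ∀ i j, P i j = v j i := by
    intro i j
    rw [hP, Module.Basis.toMatrix_apply, Pi.basisFun_repr]
  have hPdet : P.det ≠ 0 := by
    have h1 : (Pi.basisFun F (Fin 3)).toMatrix v * v.toMatrix (Pi.basisFun F (Fin 3)) = 1 :=
      Module.Basis.toMatrix_mul_toMatrix_flip _ _
    have h3 : P.det * (v.toMatrix (Pi.basisFun F (Fin 3))).det = 1 := by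
      rw [← Matrix.det_mul, hP, h1, Matrix.det_one]
    intro h0
    rw [h0, zero_mul] at h3
    exact zero_ne_one h3
  have hM : ∀ i j, (P.transpose * G * P) i j = Matrix.toBilin' G (v i) (v j) := by
    intro i j
    rw [Matrix.toBilin'_apply', Matrix.mul_assoc, Matrix.mul_apply]
    simp only [dotProduct, Matrix.mulVec, Matrix.transpose_apply, Matrix.mul_apply, hPapp]
  have hdiag : P.transpose * G * P = Matrix.diagonal ![Matrix.toBilin' G (v 0) (v 0),
      Matrix.toBilin' G (v 1) (v 1), Matrix.toBilin' G (v 2) (v 2)] := by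
    ext i j
    rw [hM]
    fin_cases i <;> fin_cases j <;> simp [Matrix.diagonal] <;> exact hort _ _ (by decide)
  have hdet : (P.transpose * G * P).det ≠ 0 := by
    rw [Matrix.det_mul, Matrix.det_mul, Matrix.det_transpose]
    exact mul_ne_zero (mul_ne_zero hPdet hd) hPdet
  rw [hdiag, Matrix.det_diagonal, Fin.prod_univ_three] at hdet
  refine ⟨P, _, _, _, hPdet, ?_, ?_, ?_, hdiag⟩
  · intro h
    apply hdet
    simp [h]
  · intro h
    apply hdet
    simp [h]
  · intro h
    apply hdet
    simp [h]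

private theorem Diag_sqf_poly {k : Type} [Field k] : ∀ (N : ℕ) (f : k[X]), f.natDegree = N → f ≠ 0 →
    ∃ g h : k[X], Squarefree g ∧ h ≠ 0 ∧ f = g * h ^ 2 := by
  intro N
  induction N using Nat.strong_induction_on with
  | _ N ih =>
    intro f hN hf
    by_cases hsq : Squarefree f
    · exact ⟨f, 1, hsq, one_ne_zero, by ring⟩
    · unfold Squarefree at hsq
      push Not at hsq
      obtain ⟨p, ⟨g, hg⟩, hp⟩ := hsq
      have hp0 : p ≠ 0 := by
        rintro rfl
        apply hf
        rw [hg]
        ring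
      have hg0 : g ≠ 0 := by
        rintro rfl
        apply hf
        rw [hg]
        ring
      have hdeg : 0 < p.natDegree := by
        rw [Nat.pos_iff_ne_zero]
        intro h0
        apply hp
        rw [Polynomial.natDegree_eq_zero] at h0
        obtain ⟨c, hc⟩ := h0
        rw [← hc] at hp0 ⊢
        exact Polynomial.isUnit_C.2 (isUnit_iff_ne_zero.2 (fun h => hp0 (by rw [h, C_0])))
      have hfd : f.natDegree = p.natDegree + p.natDegree + g.natDegree := by
        rw [hg, Polynomial.natDegree_mul (mul_ne_zero hp0 hp0) hg0,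
          Polynomial.natDegree_mul hp0 hp0]
      obtain ⟨g', h, hg', hh, e⟩ := ih g.natDegree (by omega) g rfl hg0
      exact ⟨g', p * h, hg', mul_ne_zero hp0 hh, by rw [hg, e]; ring⟩

theorem exists_squarefree {k : Type} [Field k] (x : RatFunc k) (hx : x ≠ 0) :
    ∃ (f : k[X]) (y : RatFunc k), Squarefree f ∧ y ≠ 0 ∧
      x * y ^ 2 = algebraMap k[X] (RatFunc k) f := by
  have hnum : x.num ≠ 0 := RatFunc.num_ne_zero hx
  have hden : x.denom ≠ 0 := RatFunc.denom_ne_zero x
  obtain ⟨g, h, hg, hh, e⟩ := Diag_sqf_poly _ (x.num * x.denom) rfl (mul_ne_zero hnum hden)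
  have hden' : algebraMap k[X] (RatFunc k) x.denom ≠ 0 :=
    RatFunc.algebraMap_ne_zero hden
  have hh' : algebraMap k[X] (RatFunc k) h ≠ 0 := RatFunc.algebraMap_ne_zero hh
  refine ⟨g, algebraMap k[X] (RatFunc k) x.denom / algebraMap k[X] (RatFunc k) h, hg,
    div_ne_zero hden' hh', ?_⟩
  have e' := congrArg (algebraMap k[X] (RatFunc k)) e
  rw [map_mul, map_mul, map_pow] at e'
  have hxe : x * algebraMap k[X] (RatFunc k) x.denom = algebraMap k[X] (RatFunc k) x.num := by
    have := RatFunc.num_div_denom x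
    rw [div_eq_iff hden'] at this
    exact this.symm
  rw [div_pow, ← mul_div_assoc, div_eq_iff (pow_ne_zero 2 hh'), ← e', ← hxe]
  ring

private theorem Diag_congr {F : Type} [Field F] (G P Q D D' : Matrix (Fin 3) (Fin 3) F) (c d : F)
    (h : c • (P.transpose * G * P) = D) (h2 : d • (Q.transpose * D * Q) = D') :
    (d * c) • ((P * Q).transpose * G * (P * Q)) = D' := by
  rw [← h2, ← h, Matrix.transpose_mul]
  simp only [Matrix.mul_smul, Matrix.smul_mul, smul_smul, Matrix.mul_assoc]

private theorem Diag_swap12 {F : Type} [Field F] (a b e : F) :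
    (1 : F) • ((!![0, 1, 0; 1, 0, 0; 0, 0, 1] : Matrix (Fin 3) (Fin 3) F).transpose *
      Matrix.diagonal ![a, b, e] * (!![0, 1, 0; 1, 0, 0; 0, 0, 1] : Matrix (Fin 3) (Fin 3) F)) =
      Matrix.diagonal ![b, a, e] := by
  ext i j
  fin_cases i <;> fin_cases j <;>
    simp [Matrix.mul_apply, Fin.sum_univ_three, Matrix.transpose_apply, Matrix.diagonal_apply]

private theorem Diag_rot {F : Type} [Field F] (a b e : F) :
    (1 : F) • ((!![0, 0, 1; 1, 0, 0; 0, 1, 0] : Matrix (Fin 3) (Fin 3) F).transpose *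
      Matrix.diagonal ![a, b, e] * (!![0, 0, 1; 1, 0, 0; 0, 1, 0] : Matrix (Fin 3) (Fin 3) F)) =
      Matrix.diagonal ![b, e, a] := by
  ext i j
  fin_cases i <;> fin_cases j <;>
    simp [Matrix.mul_apply, Fin.sum_univ_three, Matrix.transpose_apply, Matrix.diagonal_apply]

private theorem Diag_scale {F : Type} [Field F] (a b e x y z c : F) :
    c • ((Matrix.diagonal ![x, y, z] : Matrix (Fin 3) (Fin 3) F).transpose *
      Matrix.diagonal ![a, b, e] * Matrix.diagonal ![x, y, z]) =
      Matrix.diagonal ![c * x ^ 2 * a, c * y ^ 2 * b, c * z ^ 2 * e] := by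
  ext i j
  fin_cases i <;> fin_cases j <;> simp <;> ring

private def Diag_Concl {k : Type} [Field k] (G : Matrix (Fin 3) (Fin 3) (RatFunc k)) : Prop :=
  ∃ (P : Matrix (Fin 3) (Fin 3) (RatFunc k)) (c : RatFunc k) (a b e : k[X]),
      P.det ≠ 0 ∧ c ≠ 0 ∧ Squarefree a ∧ Squarefree b ∧ Squarefree e ∧ IsCoprime a b ∧
      IsCoprime b e ∧ IsCoprime a e ∧ c • (P.transpose * G * P) = diagP a b e

private def Diag_Reach {k : Type} [Field k] (G : Matrix (Fin 3) (Fin 3) (RatFunc k))
    (a b e : k[X]) : Prop :=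
  Squarefree a ∧ Squarefree b ∧ Squarefree e ∧
  ∃ (P : Matrix (Fin 3) (Fin 3) (RatFunc k)) (c : RatFunc k), P.det ≠ 0 ∧ c ≠ 0 ∧
    c • (P.transpose * G * P) = diagP a b e

private theorem Diag_Reach.mk' {k : Type} [Field k] {G : Matrix (Fin 3) (Fin 3) (RatFunc k)}
    {a b e a' b' e' : k[X]} (h : Diag_Reach G a b e) (Q : Matrix (Fin 3) (Fin 3) (RatFunc k))
    (d : RatFunc k) (hQ : Q.det ≠ 0) (hd : d ≠ 0) (ha : Squarefree a') (hb : Squarefree b')
    (he : Squarefree e') (h2 : d • (Q.transpose * diagP a b e * Q) = diagP a' b' e') :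
    Diag_Reach G a' b' e' := by
  obtain ⟨-, -, -, P, c, hP, hc, h1⟩ := h
  refine ⟨ha, hb, he, P * Q, d * c, ?_, mul_ne_zero hd hc, Diag_congr G P Q _ _ c d h1 h2⟩
  rw [Matrix.det_mul]
  exact mul_ne_zero hP hQ

private theorem Diag_Reach.swap {k : Type} [Field k] {G : Matrix (Fin 3) (Fin 3) (RatFunc k)}
    {a b e : k[X]} (h : Diag_Reach G a b e) : Diag_Reach G b a e := by
  refine h.mk' !![0, 1, 0; 1, 0, 0; 0, 0, 1] 1 ?_ one_ne_zero h.2.1 h.1 h.2.2.1 ?_
  · simp [Matrix.det_fin_three]
  · exact Diag_swap12 _ _ _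

private theorem Diag_Reach.rot {k : Type} [Field k] {G : Matrix (Fin 3) (Fin 3) (RatFunc k)}
    {a b e : k[X]} (h : Diag_Reach G a b e) : Diag_Reach G b e a := by
  refine h.mk' !![0, 0, 1; 1, 0, 0; 0, 1, 0] 1 ?_ one_ne_zero h.2.1 h.2.2.1 h.1 ?_
  · simp [Matrix.det_fin_three]
  · exact Diag_rot _ _ _

private theorem Diag_step {k : Type} [Field k] {G : Matrix (Fin 3) (Fin 3) (RatFunc k)}
    {a b e : k[X]} (h : Diag_Reach G a b e) (hab : ¬ IsCoprime a b) :
    ∃ a' b' e', Diag_Reach G a' b' e' ∧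
      a'.natDegree + b'.natDegree + e'.natDegree < a.natDegree + b.natDegree + e.natDegree := by
  obtain ⟨ha, hb, he, -⟩ := id h
  have ha0 : a ≠ 0 := ha.ne_zero
  have hb0 : b ≠ 0 := hb.ne_zero
  have he0 : e ≠ 0 := he.ne_zero
  have hrel : ¬ IsRelPrime a b := fun hh => hab hh.isCoprime
  obtain ⟨q, hqa, hqb, hqu⟩ : ∃ q, q ∣ a ∧ q ∣ b ∧ ¬ IsUnit q := by
    unfold IsRelPrime at hrel
    push Not at hrel
    obtain ⟨q, h1, h2, h3⟩ := hrel
    exact ⟨q, h1, h2, h3⟩
  have hq0 : q ≠ 0 := fun hh => ha0 (by rw [hh] at hqa; exact zero_dvd_iff.1 hqa)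
  obtain ⟨π, hπ, hπq⟩ := WfDvdMonoid.exists_irreducible_factor hqu hq0
  obtain ⟨a', rfl⟩ := hπq.trans hqa
  obtain ⟨b', rfl⟩ := hπq.trans hqb
  have hπ0 : π ≠ 0 := hπ.ne_zero
  have ha' : a' ≠ 0 := right_ne_zero_of_mul ha0
  have hb' : b' ≠ 0 := right_ne_zero_of_mul hb0
  have hdπ : 0 < π.natDegree := hπ.natDegree_pos
  have hcπ : (cc π : RatFunc k) ≠ 0 := RatFunc.algebraMap_ne_zero hπ0
  have h1 : (π * a').natDegree = π.natDegree + a'.natDegree := Polynomial.natDegree_mul hπ0 ha'
  have h2 : (π * b').natDegree = π.natDegree + b'.natDegree := Polynomial.natDegree_mul hπ0 hb'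
  by_cases hdiv : π ∣ e
  · obtain ⟨e', rfl⟩ := hdiv
    have he' : e' ≠ 0 := right_ne_zero_of_mul he0
    have h3 : (π * e').natDegree = π.natDegree + e'.natDegree := Polynomial.natDegree_mul hπ0 he'
    refine ⟨a', b', e', h.mk' 1 (cc π)⁻¹ (by simp) (inv_ne_zero hcπ) ha.of_mul_right
      hb.of_mul_right he.of_mul_right ?_, by omega⟩
    rw [Matrix.transpose_one, Matrix.one_mul, Matrix.mul_one]
    unfold diagP
    ext i j
    fin_cases i <;> fin_cases j <;> simp [map_mul] <;>
      rw [← mul_assoc, inv_mul_cancel₀ hcπ, one_mul]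
  · have h3 : (π * e).natDegree = π.natDegree + e.natDegree := Polynomial.natDegree_mul hπ0 he0
    have hsq : Squarefree (π * e) := by
      rw [squarefree_mul_iff]
      exact ⟨(hπ.isRelPrime_iff_not_dvd).2 hdiv, hπ.squarefree, he⟩
    refine ⟨a', b', π * e, h.mk' (Matrix.diagonal ![(cc π)⁻¹, (cc π)⁻¹, 1]) (cc π) ?_ hcπ
      ha.of_mul_right hb.of_mul_right hsq ?_, by omega⟩
    · rw [Matrix.det_diagonal, Fin.prod_univ_three]
      simp [hπ0]
    · unfold diagP
      rw [Diag_scale]
      congr 1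
      funext i
      fin_cases i
      · simp only [Fin.zero_eta, Matrix.cons_val_zero, map_mul]
        field_simp
      · simp only [Fin.mk_one, Matrix.cons_val_one, map_mul]
        field_simp
      · simp only [Fin.reduceFinMk, Matrix.cons_val, map_mul]
        ring

private theorem Diag_main {k : Type} [Field k] (G : Matrix (Fin 3) (Fin 3) (RatFunc k)) :
    ∀ (N : ℕ) (a b e : k[X]), a.natDegree + b.natDegree + e.natDegree = N →
      Diag_Reach G a b e → Diag_Concl G := by
  intro N
  induction N using Nat.strong_induction_on with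
  | _ N ih =>
    intro a b e hN h
    by_cases hab : IsCoprime a b
    · by_cases hbe : IsCoprime b e
      · by_cases hae : IsCoprime a e
        · obtain ⟨ha, hb, he, P, c, hP, hc, h1⟩ := h
          exact ⟨P, c, a, b, e, hP, hc, ha, hb, he, hab, hbe, hae, h1⟩
        · -- (a,b,e) -> swap (b,a,e) -> rot (a,e,b)
          obtain ⟨a', b', e', h', hlt⟩ := Diag_step h.swap.rot hae
          exact ih _ (by omega) a' b' e' rfl h'
      · obtain ⟨a', b', e', h', hlt⟩ := Diag_step h.rot hbe
        exact ih _ (by omega) a' b' e' rfl h'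
    · obtain ⟨a', b', e', h', hlt⟩ := Diag_step h hab
      exact ih _ (by omega) a' b' e' rfl h'

/-- Every nondegenerate ternary form over `k(t)` is, up to a scalar and a change of variables,
`a x² + b y² + e z²` with `a, b, e` squarefree and pairwise coprime polynomials. -/
theorem exists_coprime_diag {k : Type} [Field k] (h2 : (2 : k) ≠ 0)
    (G : Matrix (Fin 3) (Fin 3) (RatFunc k)) (hs : G.IsSymm) (hd : G.det ≠ 0) :
    ∃ (P : Matrix (Fin 3) (Fin 3) (RatFunc k)) (c : RatFunc k) (a b e : k[X]),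
      P.det ≠ 0 ∧ c ≠ 0 ∧ Squarefree a ∧ Squarefree b ∧ Squarefree e ∧ IsCoprime a b ∧
      IsCoprime b e ∧ IsCoprime a e ∧ c • (P.transpose * G * P) = diagP a b e := by
  have h2' : (2 : RatFunc k) ≠ 0 := by
    intro h0
    apply h2
    have : algebraMap k (RatFunc k) 2 = 0 := by rw [map_ofNat]; exact h0
    exact (map_eq_zero _).1 this
  obtain ⟨P, a, b, e, hP, ha, hb, he, h⟩ := exists_diag_field h2' G hs hd
  obtain ⟨a', x, ha', hx, hax⟩ := exists_squarefree a ha
  obtain ⟨b', y, hb', hy, hby⟩ := exists_squarefree b hb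
  obtain ⟨e', z, he', hz, hez⟩ := exists_squarefree e he
  refine Diag_main G _ a' b' e' rfl ⟨ha', hb', he', P * Matrix.diagonal ![x, y, z], 1 * 1, ?_,
    by simp, ?_⟩
  · rw [Matrix.det_mul, Matrix.det_diagonal, Fin.prod_univ_three]
    exact mul_ne_zero hP (mul_ne_zero (mul_ne_zero hx hy) hz)
  · refine Diag_congr G P _ (Matrix.diagonal ![a, b, e]) _ 1 1 (by rw [one_smul]; exact h) ?_
    rw [Diag_scale]
    unfold diagP
    congr 1
    funext i
    fin_cases i
    · change 1 * x ^ 2 * a = algebraMap k[X] (RatFunc k) a'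
      rw [← hax]
      ring
    · change 1 * y ^ 2 * b = algebraMap k[X] (RatFunc k) b'
      rw [← hby]
      ring
    · change 1 * z ^ 2 * e = algebraMap k[X] (RatFunc k) e'
      rw [← hez]
      ring

end Pool.Agent.BSDP.R
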