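import Pool.Agent.Lib.BSDP.R.Defs

/-!
Module R.Form. Diagonal ternary quadratic forms over a field with the properties `LocSq`.

* `iso_same`: by `unif` write `V a = V ϖ ^ i`, `V b = V ϖ ^ j`, `V c = V ϖ ^ l`, and
  `V s = V ϖ ^ n`, so that `i + j = 2 n` (`V ϖ < 1`, `V ϖ ≠ 0`: the powers are distinct,
  `zpow_right_strictAnti₀` or similar), and `j + l` is even too. If `i, j, l` are even:
  `a = a' (ϖ ^ (i/2))²` with `V a' = 1` etc.; if they are odd, multiply the form by `ϖ`. Then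
  `a', b', c'` are units, `repr` for `-a'/c'`, `-b'/c'` gives a zero `(x, y, 1)` of the form with
  coefficients `a', b', c'`; undo the change of variables.
* `aniso_binary`: if `V (b y²) ≠ V (c z²)`: `Valuation.map_add_eq_of_lt_left` and its mirror. If they
  are equal and nonzero: `t = -(c z²)/(b y²) = -(b c) (z / (b y))²`; if `V (b y² + c z²)` is smaller
  than `V (b y²)` then `V (t - 1) < 1`, so `t` is a square by `near`, so `-(b c)` is a square.
* `iso_ram`: if `-(b c) = s²` then `b y² + c z² = 0` for `y = s`, `z = b` (and `b ≠ 0`). Conversely,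
  let `-(b c)` be a nonsquare and `a x² = -(b y² + c z²)`; by `aniso_binary`
  `V (a x²) = max (V (b y²)) (V (c z²))`. If this is zero then `x = y = z = 0`. Otherwise
  `V (a x²) = V (b y²)` with `x, y ≠ 0`, so `V (a b) = V (b y / x) ^ 2`: excluded; or
  `V (a x²) = V (c z²)`, so `V (a c) = V (c z / x) ^ 2` and with `V (b c) = V s ^ 2` one gets
  `V (a b) = V (z s / x) ^ 2`: excluded.
-/

set_option autoImplicit false

open Polynomial Pool.Agent.BSDFF

namespace Pool.Agent.BSDP.R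

variable {F Γ : Type} [Field F] [LinearOrderedCommGroupWithZero Γ] {V : Valuation F Γ} {ϖ : F}

private lemma val_ne {x : F} (hx : x ≠ 0) : V x ≠ 0 := (Valuation.ne_zero_iff V).2 hx

private lemma unif_pos (h : LocSq V ϖ) : 0 < V ϖ := zero_lt_iff.2 (val_ne h.unif_ne)

private lemma unif_inj (h : LocSq V ϖ) {m n : ℤ} (e : V ϖ ^ m = V ϖ ^ n) : m = n :=
  (zpow_right_strictAnti₀ (unif_pos h) h.unif_lt).injective e

private lemma unif_split (h : LocSq V ϖ) {x : F} (hx : x ≠ 0) :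
    ∃ (n : ℤ) (u : F), V u = 1 ∧ V x = V ϖ ^ n ∧ x = u * ϖ ^ n := by
  obtain ⟨n, hn⟩ := h.unif x hx
  have hz : ϖ ^ n ≠ 0 := zpow_ne_zero _ h.unif_ne
  refine ⟨n, x * (ϖ ^ n)⁻¹, ?_, hn, ?_⟩
  · rw [map_mul, map_inv₀, map_zpow₀, hn]
    exact mul_inv_cancel₀ (zpow_ne_zero _ (val_ne h.unif_ne))
  · rw [mul_assoc, inv_mul_cancel₀ hz, mul_one]

private lemma same_even (h : LocSq V ϖ) {a b : F} (ha : a ≠ 0) (hb : b ≠ 0) {i j : ℤ}
    (hi : V a = V ϖ ^ i) (hj : V b = V ϖ ^ j) (hab : SameClass V a b) : ∃ n : ℤ, i + j = 2 * n := by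
  obtain ⟨s, hs⟩ := hab
  have hs0 : s ≠ 0 := by
    rintro rfl
    rw [map_zero, zero_pow two_ne_zero] at hs
    exact val_ne (mul_ne_zero ha hb) hs
  obtain ⟨n, hn⟩ := h.unif s hs0
  refine ⟨n, unif_inj h ?_⟩
  rw [zpow_add₀ (val_ne h.unif_ne), ← hi, ← hj, ← map_mul, hs, hn, two_mul,
    zpow_add₀ (val_ne h.unif_ne), sq]

/-- If the three values agree modulo squares the form `a x² + b y² + c z²` is isotropic. -/
theorem LocSq.iso_same (h : LocSq V ϖ) {a b c : F} (ha : a ≠ 0) (hb : b ≠ 0) (hc : c ≠ 0)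
    (hab : SameClass V a b) (hbc : SameClass V b c) :
    ∃ x y z : F, (x ≠ 0 ∨ y ≠ 0 ∨ z ≠ 0) ∧ a * x ^ 2 + b * y ^ 2 + c * z ^ 2 = 0 := by
  obtain ⟨i, u, hu, hi, rfl⟩ := unif_split h ha
  obtain ⟨j, v, hv, hj, rfl⟩ := unif_split h hb
  obtain ⟨l, w, hw, hl, rfl⟩ := unif_split h hc
  obtain ⟨n, hn⟩ := same_even h ha hb hi hj hab
  obtain ⟨m, hm⟩ := same_even h hb hc hj hl hbc
  have hw0 : w ≠ 0 := by
    rintro rfl
    simp at hw
  have h1 : V (-u / w) = 1 := by rw [map_div₀, Valuation.map_neg, hu, hw, div_one]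
  have h2 : V (-v / w) = 1 := by rw [map_div₀, Valuation.map_neg, hv, hw, div_one]
  obtain ⟨x, y, hxy⟩ := h.repr _ _ h1 h2
  have key : u * x ^ 2 + v * y ^ 2 + w = 0 := by
    field_simp at hxy
    linear_combination -hxy
  have hz := h.unif_ne
  have ei : ϖ ^ i = ϖ ^ j * (ϖ ^ (n - j)) ^ 2 := by
    rw [← zpow_natCast, ← zpow_mul, ← zpow_add₀ hz]
    congr 1
    push_cast
    linarith
  have el : ϖ ^ l = ϖ ^ j * (ϖ ^ (m - j)) ^ 2 := by
    rw [← zpow_natCast, ← zpow_mul, ← zpow_add₀ hz]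
    congr 1
    push_cast
    linarith
  have hp : ϖ ^ (n - j) ≠ 0 := zpow_ne_zero _ hz
  have hq : ϖ ^ (m - j) ≠ 0 := zpow_ne_zero _ hz
  refine ⟨x / ϖ ^ (n - j), y, 1 / ϖ ^ (m - j), Or.inr (Or.inr (one_div_ne_zero hq)), ?_⟩
  rw [ei, el]
  generalize ϖ ^ (n - j) = P at *
  generalize ϖ ^ (m - j) = Q at *
  generalize ϖ ^ j = R at *
  have e1 : u * (R * P ^ 2) * (x / P) ^ 2 = R * (u * x ^ 2) := by
    field_simp
  have e2 : w * (R * Q ^ 2) * (1 / Q) ^ 2 = R * w := by
    field_simp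
  rw [e1, e2]
  linear_combination R * key

/-- A binary form `b y² + c z²` with `-bc` a nonsquare: the value of `b y² + c z²` is the larger one
of the two values (no cancellation). -/
theorem LocSq.aniso_binary (h : LocSq V ϖ) {b c : F} (hb : b ≠ 0) (hc : c ≠ 0)
    (hn : ¬ IsSquare (-(b * c))) (y z : F) :
    V (b * y ^ 2 + c * z ^ 2) = max (V (b * y ^ 2)) (V (c * z ^ 2)) := by
  rcases lt_trichotomy (V (b * y ^ 2)) (V (c * z ^ 2)) with hlt | heq | hlt
  · rw [Valuation.map_add_eq_of_lt_right V hlt, max_eq_right hlt.le]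
  · rw [heq, max_self]
    by_cases hz : z = 0
    · subst hz
      have h0 : V (b * y ^ 2) = 0 := by rw [heq]; simp
      have h1 : b * y ^ 2 = 0 := (Valuation.zero_iff V).1 h0
      rw [h1]
      simp
    have hcz : V (c * z ^ 2) ≠ 0 := val_ne (mul_ne_zero hc (pow_ne_zero _ hz))
    have hy : y ≠ 0 := by
      rintro rfl
      apply hcz
      rw [← heq]
      simp
    refine le_antisymm ((Valuation.map_add V _ _).trans (by rw [heq, max_self])) ?_
    by_contra hlt
    rw [not_le] at hlt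
    have hby : b * y ^ 2 ≠ 0 := mul_ne_zero hb (pow_ne_zero _ hy)
    have ht : V (-(c * z ^ 2) / (b * y ^ 2) - 1) < 1 := by
      have e1 : -(c * z ^ 2) / (b * y ^ 2) - 1 = -((b * y ^ 2 + c * z ^ 2) / (b * y ^ 2)) := by
        field_simp
        ring
      rw [e1, Valuation.map_neg, map_div₀, heq]
      exact (div_lt_one₀ (zero_lt_iff.2 hcz)).2 hlt
    obtain ⟨r, hr⟩ := h.near _ ht
    apply hn
    refine ⟨r * (b * y) / z, ?_⟩
    have hr' : -(c * z ^ 2) = r * r * (b * y ^ 2) := by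
      rw [← hr]
      field_simp
    rw [div_mul_div_comm, eq_div_iff (mul_ne_zero hz hz)]
    linear_combination b * hr'
  · rw [Valuation.map_add_eq_of_lt_left V hlt, max_eq_left hlt.le]

/-- If `V a` differs from `V b` and `V b`, `V c` agree modulo squares, the form
`a x² + b y² + c z²` is isotropic if and only if `-bc` is a square. -/
theorem LocSq.iso_ram (h : LocSq V ϖ) {a b c : F} (ha : a ≠ 0) (hb : b ≠ 0) (hc : c ≠ 0)
    (hab : ¬ SameClass V a b) (hbc : SameClass V b c) :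
    (∃ x y z : F, (x ≠ 0 ∨ y ≠ 0 ∨ z ≠ 0) ∧ a * x ^ 2 + b * y ^ 2 + c * z ^ 2 = 0) ↔
      IsSquare (-(b * c)) := by
  constructor
  · rintro ⟨x, y, z, hne, he⟩
    by_contra hns
    have hm := h.aniso_binary hb hc hns y z
    have e1 : b * y ^ 2 + c * z ^ 2 = -(a * x ^ 2) := by linear_combination he
    rw [e1, Valuation.map_neg] at hm
    by_cases hx : x = 0
    · subst hx
      have h0 : max (V (b * y ^ 2)) (V (c * z ^ 2)) = 0 := by rw [← hm]; simp
      have h1 : V (b * y ^ 2) = 0 := le_antisymm (h0 ▸ le_max_left _ _) zero_le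
      have h2 : V (c * z ^ 2) = 0 := le_antisymm (h0 ▸ le_max_right _ _) zero_le
      have h3 : b * y ^ 2 = 0 := (Valuation.zero_iff V).1 h1
      have h4 : c * z ^ 2 = 0 := (Valuation.zero_iff V).1 h2
      have hy : y = 0 := by simpa [hb] using h3
      have hz : z = 0 := by simpa [hc] using h4
      rcases hne with h5 | h5 | h5
      · exact h5 rfl
      · exact h5 hy
      · exact h5 hz
    have hVx : V x ≠ 0 := val_ne hx
    rcases max_choice (V (b * y ^ 2)) (V (c * z ^ 2)) with hc1 | hc1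
    · rw [hc1] at hm
      apply hab
      refine ⟨b * y / x, ?_⟩
      simp only [map_mul, map_pow, map_div₀] at hm ⊢
      field_simp
      calc V a * V b * V x ^ 2 = V b * (V a * V x ^ 2) := by ac_rfl
        _ = V b * (V b * V y ^ 2) := by rw [hm]
        _ = V b ^ 2 * V y ^ 2 := by rw [sq (V b)]; ac_rfl
    · rw [hc1] at hm
      obtain ⟨s, hs⟩ := hbc
      apply hab
      refine ⟨z * s / x, ?_⟩
      simp only [map_mul, map_pow, map_div₀] at hm hs ⊢
      field_simp
      calc V a * V b * V x ^ 2 = V b * (V a * V x ^ 2) := by ac_rfl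
        _ = V b * (V c * V z ^ 2) := by rw [hm]
        _ = V z ^ 2 * (V b * V c) := by ac_rfl
        _ = V z ^ 2 * V s ^ 2 := by rw [hs]
  · rintro ⟨s, hs⟩
    refine ⟨0, s, b, Or.inr (Or.inr hb), ?_⟩
    linear_combination (-b) * hs

end Pool.Agent.BSDP.R
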