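import Pool.Agent.Lib.BSDP.R.Loc
import Pool.Agent.Lib.BSDP.R.Form
import Pool.Agent.Lib.BSDP.R.Congr
import Pool.Agent.Lib.BSDP.R.Char
import Pool.Agent.Lib.MP_48b749_nt.Odd.LocComp

/-!
Module R.Fin. The local conditions at the finite places for `a x² + b y² + e z²` with `a, b, e`
squarefree and pairwise coprime polynomials. Here `v = placeOf π hπ` and `L : LocAt v`
(`L.mem_iff`, `L.lt_iff`, `L.dense` compare the valuation ring `L.O` of the completion with that of
`v`).

* `valuation_eq_one_iff'`: `L.lt_iff` for `x` and `x⁻¹`.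
* `isSquare_placeOf`: `f` is a unit at `v` (`Odd.valuation_eq_one`). If `f ≡ g²` modulo `π` then the
  value of `f - g²` is less than one (`Odd.valuation_lt_one`), `isSquare_of_near_sq`. Conversely, if
  `f = y²` in the completion, `L.dense` gives `c ∈ k(t)` with `V (y - c) < 1`, so
  `V (f - c²) < 1`, i.e. `v.ring.valuation (f - c²) < 1`; now `Odd.isSquare_mk_of_near` with
  `B = G = f`, `M = 1`.
* `sameClass_placeOf_iff`: if the multiplicity is `2 n` take `s = π^n` (`Odd.valuation_eq_pow` is
  about `v`; transfer: the value in `L.O` of an element of `k(t)` is one iff it is one at `v`, apply to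
  `f * g / π^(2 n)`). Conversely approximate `s` by an element `c` of `k(t)` with the same value
  (`L.dense x x`): `f g / c²` is a unit at `v`, so `IsSquare` of the value at `v`,
  `Odd.isSquare_valuation_iff`.
* `isoAt_of_not_dvd`: `isoAt_diagP_iff`, `LocSq.iso_same` with `s = 1`.
* `isoAt_iff_of_dvd`: `LocSq.iso_ram`: `b, e` are units at `π`, `a` has the multiplicity one; then
  `isSquare_placeOf` for `-(b e)`, and `chiP π f = 1` iff `f` is a square modulo `π` (`π ∤ f`).
-/

set_option autoImplicit false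

open Polynomial Pool.Agent.BSDFF

namespace Pool.Agent.BSDP.R

variable {k : Type} [Field k]

private theorem val_one_iff {F Γ : Type} [Field F] [LinearOrderedCommGroupWithZero Γ]
    (W : Valuation F Γ) (x : F) : W x = 1 ↔ ¬ W x < 1 ∧ ¬ W x⁻¹ < 1 := by
  constructor
  · intro h
    rw [map_inv₀, h]
    simp
  · rintro ⟨h1, h2⟩
    rw [map_inv₀] at h2
    have h3 := not_lt.1 h1
    refine le_antisymm ?_ h3
    by_contra h4
    exact h2 (inv_lt_one_of_one_lt₀ (not_le.1 h4))

theorem valuation_eq_one_iff' {v : Place k (RatFunc k)} (L : LocAt v) (x : RatFunc k) :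
    L.O.valuation (v.toCompletion x) = 1 ↔ v.ring.valuation x = 1 := by
  rw [val_one_iff, val_one_iff v.ring.valuation, ← map_inv₀, L.lt_iff, L.lt_iff]

/-- At the point `π`, for a polynomial `f` prime to `π`. -/
theorem isSquare_placeOf {π : k[X]} (hπ : Irreducible π) (L : LocAt (placeOf π hπ)) {f : k[X]}
    (hf : ¬ π ∣ f) :
    IsSquare ((placeOf π hπ).toCompletion (cc f)) ↔ IsSquare (AdjoinRoot.mk π f) := by
  have hf1 : L.O.valuation ((placeOf π hπ).toCompletion (cc f)) = 1 :=
    (valuation_eq_one_iff' L _).2 (Odd.valuation_eq_one hπ hf)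
  constructor
  · rintro ⟨y, hy⟩
    obtain ⟨a, ha⟩ := L.dense y 1 one_ne_zero
    rw [map_one] at ha
    have hy1 : L.O.valuation y = 1 := by
      rw [hy, map_mul, ← pow_two] at hf1
      exact le_antisymm ((pow_le_one_iff (by norm_num)).1 hf1.le)
        ((one_le_pow_iff (by norm_num)).1 hf1.ge)
    have hsum : L.O.valuation (y + (placeOf π hπ).toCompletion a) ≤ 1 := by
      have e : y + (placeOf π hπ).toCompletion a =
          (y + y) - (y - (placeOf π hπ).toCompletion a) := by ring
      rw [e]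
      refine (Valuation.map_sub _ _ _).trans (max_le ?_ ha.le)
      exact (Valuation.map_add _ _ _).trans (max_le hy1.le hy1.le)
    have hlt : L.O.valuation ((placeOf π hπ).toCompletion (cc f - a ^ 2)) < 1 := by
      have e : (placeOf π hπ).toCompletion (cc f - a ^ 2) =
          (y - (placeOf π hπ).toCompletion a) * (y + (placeOf π hπ).toCompletion a) := by
        rw [map_sub, map_pow, hy]
        ring
      rw [e, map_mul]
      exact mul_lt_one_of_lt_of_le ha hsum
    rw [L.lt_iff] at hlt
    have hf0 : f ≠ 0 := by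
      rintro rfl
      exact hf (dvd_zero _)
    refine Odd.isSquare_mk_of_near hπ hf0 ⟨a, ?_⟩ f 1 (by ring) hf
    rw [Odd.valuation_eq_one hπ hf]
    exact hlt
  · rintro ⟨m, hm⟩
    obtain ⟨g, rfl⟩ := AdjoinRoot.mk_surjective m
    have hdvd : π ∣ f - g * g := by
      rw [← AdjoinRoot.mk_eq_zero, map_sub, map_mul, hm, sub_self]
    have hg : ¬ π ∣ g := by
      intro hg
      apply hf
      have h2 := dvd_add hdvd (hg.mul_right g)
      rwa [sub_add_cancel] at h2
    refine isSquare_of_near_sq L.toLoc _ ((placeOf π hπ).toCompletion (cc g))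
      ((valuation_eq_one_iff' L _).2 (Odd.valuation_eq_one hπ hg)) ?_
    have e : (placeOf π hπ).toCompletion (cc f) - (placeOf π hπ).toCompletion (cc g) ^ 2 =
        (placeOf π hπ).toCompletion (cc (f - g * g)) := by
      simp only [cc, map_sub, map_mul, pow_two]
    rw [e, L.lt_iff]
    exact Odd.valuation_lt_one hπ hdvd

theorem sameClass_placeOf_iff {π : k[X]} (hπ : Irreducible π) (L : LocAt (placeOf π hπ))
    {f g : k[X]} (hf : f ≠ 0) (hg : g ≠ 0) :
    SameClass L.O.valuation ((placeOf π hπ).toCompletion (cc f))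
      ((placeOf π hπ).toCompletion (cc g)) ↔ Even (multiplicity π (f * g)) := by
  have hfg : f * g ≠ 0 := mul_ne_zero hf hg
  have e0 : (placeOf π hπ).toCompletion (cc f) * (placeOf π hπ).toCompletion (cc g) =
      (placeOf π hπ).toCompletion (cc (f * g)) := by
    rw [← map_mul, cc, cc, ← map_mul]
  unfold SameClass
  rw [e0]
  have hc0 : cc (f * g) ≠ 0 := by
    simpa using hfg
  constructor
  · rintro ⟨s, hs⟩
    have hs0 : s ≠ 0 := by
      rintro rfl
      rw [map_zero, zero_pow (by norm_num), Valuation.zero_iff, map_eq_zero] at hs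
      exact hc0 hs
    obtain ⟨a, ha⟩ := L.dense s s hs0
    have ha1 : L.O.valuation ((placeOf π hπ).toCompletion a) = L.O.valuation s := by
      have h1 := Valuation.map_sub_eq_of_lt_left _ ha
      rw [sub_sub_cancel] at h1
      exact h1
    have ha0 : a ≠ 0 := by
      rintro rfl
      rw [map_zero, map_zero] at ha1
      exact hs0 ((Valuation.zero_iff _).1 ha1.symm)
    have hV : L.O.valuation ((placeOf π hπ).toCompletion (cc (f * g) / a ^ 2)) = 1 := by
      rw [map_div₀, map_div₀, map_pow, map_pow, ha1, hs]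
      exact div_self (pow_ne_zero _ ((Valuation.ne_zero_iff _).2 hs0))
    rw [valuation_eq_one_iff', map_div₀, map_pow] at hV
    rw [← Odd.isSquare_valuation_iff hπ hfg]
    refine ⟨(placeOf π hπ).ring.valuation a, ?_⟩
    rw [← pow_two]
    exact (div_eq_one_iff_eq (pow_ne_zero _ ((Valuation.ne_zero_iff _).2 ha0))).1 hV
  · rintro ⟨m, hm⟩
    have hπ0 : cc π ≠ 0 := by
      simpa using hπ.ne_zero
    have hv := Odd.valuation_eq_pow hπ hfg
    rw [hm] at hv
    have h1 : L.O.valuation ((placeOf π hπ).toCompletion (cc (f * g) / (cc π) ^ (m + m))) = 1 := by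
      rw [valuation_eq_one_iff', map_div₀, map_pow, hv]
      exact div_self (pow_ne_zero _ ((Valuation.ne_zero_iff _).2 hπ0))
    refine ⟨(placeOf π hπ).toCompletion ((cc π) ^ m), ?_⟩
    rw [map_div₀, map_div₀] at h1
    have h2 := (div_eq_one_iff_eq (by
      rw [Valuation.ne_zero_iff, _root_.map_ne_zero]
      exact pow_ne_zero _ hπ0)).1 h1
    rw [h2, pow_add, map_mul, map_mul, pow_two]

theorem isoAt_of_not_dvd {π : k[X]} (hπ : Irreducible π) (L : LocAt (placeOf π hπ))
    {a b e : k[X]} (ha : ¬ π ∣ a) (hb : ¬ π ∣ b) (he : ¬ π ∣ e) :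
    IsoAt (placeOf π hπ) (diagP a b e) := by
  rw [isoAt_diagP_iff]
  have hne : ∀ {f : k[X]}, ¬ π ∣ f → (placeOf π hπ).toCompletion (cc f) ≠ 0 := by
    intro f hf
    rw [_root_.map_ne_zero]
    have : f ≠ 0 := by
      rintro rfl
      exact hf (dvd_zero _)
    simpa using this
  have h1 : ∀ {f : k[X]}, ¬ π ∣ f → L.O.valuation ((placeOf π hπ).toCompletion (cc f)) = 1 :=
    fun hf => (valuation_eq_one_iff' L _).2 (Odd.valuation_eq_one hπ hf)
  refine (locSq_of_loc L.toLoc).iso_same (hne ha) (hne hb) (hne he) ⟨1, ?_⟩ ⟨1, ?_⟩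
  · rw [map_mul, h1 ha, h1 hb, map_one]
    simp
  · rw [map_mul, h1 hb, h1 he, map_one]
    simp

/-- at a prime which divides `a` (exactly once) -/
theorem isoAt_iff_of_dvd {π : k[X]} (hπ : Irreducible π) (L : LocAt (placeOf π hπ))
    {a b e : k[X]} (ha0 : Squarefree a) (ha : π ∣ a) (hb : ¬ π ∣ b) (he : ¬ π ∣ e) :
    IsoAt (placeOf π hπ) (diagP a b e) ↔ chiP π (-(b * e)) = 1 := by
  classical
  rw [isoAt_diagP_iff]
  have hne0 : ∀ {f : k[X]}, ¬ π ∣ f → f ≠ 0 := by
    rintro f hf rfl
    exact hf (dvd_zero _)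
  have hne : ∀ {f : k[X]}, f ≠ 0 → (placeOf π hπ).toCompletion (cc f) ≠ 0 := by
    intro f hf
    rw [_root_.map_ne_zero]
    simpa using hf
  have ha1 : a ≠ 0 := ha0.ne_zero
  have hbe : ¬ π ∣ b * e := fun h => (hπ.prime.dvd_or_dvd h).elim hb he
  have hab : ¬ SameClass L.O.valuation ((placeOf π hπ).toCompletion (cc a))
      ((placeOf π hπ).toCompletion (cc b)) := by
    rw [sameClass_placeOf_iff hπ L ha1 (hne0 hb)]
    have hm : multiplicity π (a * b) = 1 := by
      refine multiplicity_eq_of_dvd_of_not_dvd ?_ ?_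
      · rw [pow_one]
        exact ha.mul_right b
      · intro h
        have hcop : IsCoprime (π ^ (1 + 1)) b := ((hπ.coprime_iff_not_dvd).2 hb).pow_left
        have h2 := hcop.dvd_of_dvd_mul_right h
        rw [pow_add, pow_one] at h2
        exact hπ.not_isUnit (ha0 π h2)
    rw [hm]
    decide
  have hbc : SameClass L.O.valuation ((placeOf π hπ).toCompletion (cc b))
      ((placeOf π hπ).toCompletion (cc e)) := by
    rw [sameClass_placeOf_iff hπ L (hne0 hb) (hne0 he)]
    have hm : multiplicity π (b * e) = 0 := by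
      refine multiplicity_eq_of_dvd_of_not_dvd ?_ ?_
      · rw [pow_zero]
        exact one_dvd _
      · rw [zero_add, pow_one]
        exact hbe
    rw [hm]
    exact Even.zero
  rw [(locSq_of_loc L.toLoc).iso_ram (hne ha1) (hne (hne0 hb)) (hne (hne0 he)) hab hbc]
  have e1 : -((placeOf π hπ).toCompletion (cc b) * (placeOf π hπ).toCompletion (cc e)) =
      (placeOf π hπ).toCompletion (cc (-(b * e))) := by
    simp only [cc, map_neg, map_mul]
  have hbe' : ¬ π ∣ -(b * e) := by
    rwa [dvd_neg]
  rw [e1, isSquare_placeOf hπ L hbe']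
  unfold chiP
  rw [if_neg hbe']
  split_ifs with h
  · exact iff_of_true h rfl
  · exact iff_of_false h (by norm_num)

end Pool.Agent.BSDP.R
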