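import Pool.Agent.Lib.BSDP.R.Loc
import Pool.Agent.Lib.BSDP.R.Form
import Pool.Agent.Lib.BSDP.R.Congr
import Pool.Agent.Lib.BSDP.R.Char

/-!
Module R.Inf. The local condition at infinity for `a x² + b y² + e z²`. Here `L : LocAt (placeInfty k)`.

* `lt_one_infty`: `L.lt_iff`, and `x ∈ (placeInfty k).ring` with `x` not a unit iff `x = 0` or the
  degree is negative (`mem_placeInfty_iff`, `isUnit_infty_iff`,
  `ValuationSubring.valuation_lt_one_iff`).
* `isSquare_placeInfty`: divide `f` by the square of `X ^ (deg f / 2)`: the quotient `u` has degree `0`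
  and is congruent to the leading coefficient `c` of `f` (`u - c` has negative degree or is zero). If
  `c = s²` in `k` then `u` is a square by `isSquare_of_near_sq` (`y = s`). If `u = y²` in the completion
  then by `L.dense` there is `z ∈ k(t)` with `V (y - z) < 1`; `z` is in the ring at infinity, so it is
  congruent to a constant `s`; `c - s²` is a constant of value less than one, so it is `0`.
* `sameClass_placeInfty_iff`: if `deg f + deg g = 2 n` take `s = X ^ n`; conversely, given `s` take
  `c ∈ k(t)` with the same value (`L.dense s s`): `f g / c²` has degree `0`, so `deg f + deg g` is even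
  (`RatFunc.intDegree_mul`).
* `isoAt_infty_iff`: cases by the parities of the three degrees `i, j, l` (`sgn` of a nonzero element is
  `1` or `-1`, `sgn_mul`).
  - all equal: `LocSq.iso_same`, and `sgnInf = 1`: the exponents of the leading coefficients are even, and
    `ij + jl + il + i + j + l` is even (`0`, or `3 + 3`);
  - `i` is odd and `j, l` even: `LocSq.iso_ram` for `(a; b, e)`, `-(b e)` has even degree and leading
    coefficient `-β ε`; `sgnInf = sgn (-1)^(odd) * sgn β * sgn ε` (`ij + jl + il` is even, `i + j + l` odd);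
  - `i` is even and `j, l` odd: the same; the exponent of `sgn (-1)` is `1 + 2` mod 2, odd; those of
    `sgn α, sgn β, sgn ε` are `0, 1, 1` mod 2;
  - the other two cases by `isoAt_diagP_swap`, `isoAt_diagP_rot` (and `sgnInf` is symmetric).
-/

set_option autoImplicit false

open Polynomial Pool.Agent.BSDFF

namespace Pool.Agent.BSDP.R

variable {k : Type} [Field k]

theorem lt_one_infty (L : LocAt (placeInfty k)) (x : RatFunc k) :
    L.O.valuation ((placeInfty k).toCompletion x) < 1 ↔ x = 0 ∨ x.intDegree < 0 := by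
  rw [L.lt_iff]
  constructor
  · intro h
    have hx : x ∈ (placeInfty k).ring := (ValuationSubring.valuation_le_one_iff _ _).1 h.le
    have h1 : (⟨x, hx⟩ : (placeInfty k).ring) ∈ IsLocalRing.maximalIdeal (placeInfty k).ring :=
      (ValuationSubring.valuation_lt_one_iff _ _).2 h
    rw [IsLocalRing.mem_maximalIdeal, mem_nonunits_iff, isUnit_infty_iff] at h1
    rcases eq_or_ne x 0 with h0 | h0
    · exact Or.inl h0
    · right
      have h2 := ((mem_placeInfty_iff k x).1 hx).resolve_left h0
      have h3 : x.intDegree ≠ 0 := fun h => h1 ⟨h0, h⟩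
      omega
  · intro h
    have hx : x ∈ (placeInfty k).ring := by
      rw [mem_placeInfty_iff]
      rcases h with h | h
      · exact Or.inl h
      · exact Or.inr h.le
    refine (ValuationSubring.valuation_lt_one_iff _ (⟨x, hx⟩ : (placeInfty k).ring)).1 ?_
    rw [IsLocalRing.mem_maximalIdeal, mem_nonunits_iff, isUnit_infty_iff]
    rintro ⟨h1, h2⟩
    change x ≠ 0 at h1
    change x.intDegree = 0 at h2
    rcases h with h | h
    · exact h1 h
    · omega

private theorem le_one_infty (L : LocAt (placeInfty k)) (x : RatFunc k) :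
    L.O.valuation ((placeInfty k).toCompletion x) ≤ 1 ↔ x = 0 ∨ x.intDegree ≤ 0 := by
  rw [ValuationSubring.valuation_le_one_iff, L.mem_iff, mem_placeInfty_iff]

private theorem eq_one_infty (L : LocAt (placeInfty k)) (x : RatFunc k) :
    L.O.valuation ((placeInfty k).toCompletion x) = 1 ↔ x ≠ 0 ∧ x.intDegree = 0 := by
  have h1 := le_one_infty L x
  have h2 := lt_one_infty L x
  constructor
  · intro h
    have h3 := h1.1 h.le
    have h4 : ¬ (x = 0 ∨ x.intDegree < 0) := fun h' => (h2.2 h').ne h
    push Not at h4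
    refine ⟨h4.1, ?_⟩
    have := h3.resolve_left h4.1
    omega
  · rintro ⟨h3, h4⟩
    refine le_antisymm (h1.2 (Or.inr h4.le)) (not_lt.1 fun h => ?_)
    rcases h2.1 h with h5 | h5
    · exact h3 h5
    · omega

private theorem intDegree_X_pow (n : ℕ) : ((RatFunc.X : RatFunc k) ^ n).intDegree = n := by
  have h : (RatFunc.X : RatFunc k) ^ n = algebraMap k[X] (RatFunc k) (X ^ n) := by
    rw [map_pow, RatFunc.algebraMap_X]
  rw [h, RatFunc.intDegree_polynomial, natDegree_X_pow]

private theorem cc_ne {f : k[X]} (hf : f ≠ 0) : cc f ≠ 0 := by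
  intro h
  exact hf ((FaithfulSMul.algebraMap_eq_zero_iff _ _).mp h)

/-- an element of the ring at infinity is congruent to a constant -/
private theorem const_infty (x : RatFunc k) (hx : x = 0 ∨ x.intDegree ≤ 0) :
    ∃ c : k, x - cc (C c) = 0 ∨ (x - cc (C c)).intDegree < 0 := by
  have hm : x ∈ (placeInfty k).ring := by rwa [mem_placeInfty_iff]
  obtain ⟨c, hc⟩ := constMap_infty_surjective (IsLocalRing.residue _ (⟨x, hm⟩ : (placeInfty k).ring))
  refine ⟨c, ?_⟩
  unfold Place.constMap at hc
  rw [RingHom.comp_apply, eq_comm, ← sub_eq_zero, ← map_sub, IsLocalRing.residue_eq_zero_iff,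
    IsLocalRing.mem_maximalIdeal, mem_nonunits_iff, isUnit_infty_iff] at hc
  have e : ((⟨x, hm⟩ - ((algebraMap k (RatFunc k)).codRestrict (placeInfty k).ring.toSubring
      (placeInfty k).const_mem) c : (placeInfty k).ring) : RatFunc k) = x - cc (C c) := by
    change x - algebraMap k (RatFunc k) c = x - algebraMap k[X] (RatFunc k) (C c)
    rw [IsScalarTower.algebraMap_apply k k[X] (RatFunc k)]
    rfl
  rw [e] at hc
  have hmem : x - cc (C c) ∈ (placeInfty k).ring := by
    rw [← e]
    exact Subtype.property _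
  rcases eq_or_ne (x - cc (C c)) 0 with h0 | h0
  · exact Or.inl h0
  · right
    have h2 := ((mem_placeInfty_iff k _).1 hmem).resolve_left h0
    have h3 : (x - cc (C c)).intDegree ≠ 0 := fun h => hc ⟨h0, h⟩
    omega

/-- At infinity, for a polynomial of even degree. -/
theorem isSquare_placeInfty (L : LocAt (placeInfty k)) {f : k[X]} (hf : f ≠ 0)
    (he : Even f.natDegree) :
    IsSquare ((placeInfty k).toCompletion (cc f)) ↔ IsSquare f.leadingCoeff := by
  obtain ⟨n, hn⟩ := he
  set φ := (placeInfty k).toCompletion with hφ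
  set c := f.leadingCoeff with hc
  have hc0 : c ≠ 0 := leadingCoeff_ne_zero.2 hf
  have hX : (RatFunc.X : RatFunc k) ^ n ≠ 0 := pow_ne_zero _ RatFunc.X_ne_zero
  have hXc : cc (X ^ n : k[X]) = RatFunc.X ^ n := by
    unfold cc
    rw [map_pow, RatFunc.algebraMap_X]
  -- the quotient
  set u : RatFunc k := cc f / (RatFunc.X ^ n * RatFunc.X ^ n) with hu
  have hfu : cc f = u * (RatFunc.X ^ n * RatFunc.X ^ n) := by
    rw [hu, div_mul_cancel₀ _ (mul_ne_zero hX hX)]
  have hsq : IsSquare (φ (cc f)) ↔ IsSquare (φ u) := by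
    rw [hfu, map_mul, map_mul]
    have hφX : φ (RatFunc.X ^ n) ≠ 0 := (_root_.map_ne_zero φ).2 hX
    constructor
    · rintro ⟨r, hr⟩
      refine ⟨r / φ (RatFunc.X ^ n), ?_⟩
      field_simp
      linear_combination hr
    · rintro ⟨r, hr⟩
      refine ⟨r * φ (RatFunc.X ^ n), ?_⟩
      rw [hr]
      ring
  have huc : L.O.valuation (φ (u - cc (C c))) < 1 := by
    rw [lt_one_infty]
    have e : u - cc (C c) = cc (f - C c * X ^ f.natDegree) / (RatFunc.X ^ n * RatFunc.X ^ n) := by
      rw [eq_div_iff (mul_ne_zero hX hX), sub_mul, ← hfu]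
      unfold cc
      rw [map_sub, map_mul, map_pow, RatFunc.algebraMap_X, hn, pow_add]
    have hdX : ((RatFunc.X : RatFunc k) ^ n * RatFunc.X ^ n).intDegree = (f.natDegree : ℤ) := by
      rw [← pow_add, intDegree_X_pow, hn]
    rcases eq_or_ne (f - C c * X ^ f.natDegree) 0 with h0 | h0
    · left
      rw [e, h0]
      unfold cc
      rw [map_zero, zero_div]
    · right
      rw [e, RatFunc.intDegree_div (cc_ne h0) (mul_ne_zero hX hX), hdX]
      unfold cc
      rw [RatFunc.intDegree_polynomial]
      have h1 : (f - C c * X ^ f.natDegree).degree < f.degree := by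
        have h3 : (C c * X ^ f.natDegree : k[X]).degree = f.degree := by
          rw [degree_C_mul_X_pow _ hc0, degree_eq_natDegree hf]
        have h4 : (C c * X ^ f.natDegree : k[X]).leadingCoeff = f.leadingCoeff := by
          rw [leadingCoeff_C_mul_X_pow]
        exact degree_sub_lt_left h3.symm hf h4.symm
      have h2 := natDegree_lt_natDegree h0 h1
      omega
  have hVu : L.O.valuation (φ u) = 1 := by
    rw [eq_one_infty]
    refine ⟨div_ne_zero (cc_ne hf) (mul_ne_zero hX hX), ?_⟩
    rw [hu, RatFunc.intDegree_div (cc_ne hf) (mul_ne_zero hX hX), ← pow_add, intDegree_X_pow]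
    unfold cc
    rw [RatFunc.intDegree_polynomial, hn]
    push_cast
    ring
  have hconst : ∀ d : k, d ≠ 0 → L.O.valuation (φ (cc (C d))) = 1 := by
    intro d hd
    rw [eq_one_infty]
    refine ⟨cc_ne (C_ne_zero.2 hd), ?_⟩
    unfold cc
    rw [RatFunc.intDegree_polynomial, natDegree_C]
    rfl
  rw [hsq]
  constructor
  · rintro ⟨y, hy⟩
    have hVy : L.O.valuation y = 1 := by
      rw [hy, map_mul] at hVu
      rcases lt_trichotomy (L.O.valuation y) 1 with h | h | h
      · exact absurd hVu (mul_lt_one_of_nonneg_of_lt_one_left zero_le h h.le).ne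
      · exact h
      · exact absurd hVu (one_lt_mul'' h h).ne'
    obtain ⟨z, hz⟩ := L.dense y 1 one_ne_zero
    rw [map_one] at hz
    have hVz : L.O.valuation (φ z) ≤ 1 := by
      have h1 : φ z = y - (y - φ z) := by ring
      rw [h1]
      exact (Valuation.map_sub _ _ _).trans (max_le hVy.le hz.le)
    obtain ⟨s, hs⟩ := const_infty z ((le_one_infty L z).1 hVz)
    have hzs : L.O.valuation (φ z - φ (cc (C s))) < 1 := by
      rw [← map_sub]
      exact (lt_one_infty L _).2 hs
    have hys : L.O.valuation (y - φ (cc (C s))) < 1 := by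
      have h1 : y - φ (cc (C s)) = (y - φ z) + (φ z - φ (cc (C s))) := by ring
      rw [h1]
      exact (Valuation.map_add _ _ _).trans_lt (max_lt hz hzs)
    have hVs : L.O.valuation (φ (cc (C s))) ≤ 1 := by
      have h1 : φ (cc (C s)) = y - (y - φ (cc (C s))) := by ring
      rw [h1]
      exact (Valuation.map_sub _ _ _).trans (max_le hVy.le hys.le)
    have h3 : L.O.valuation (φ u - φ (cc (C s)) * φ (cc (C s))) < 1 := by
      have h1 : φ u - φ (cc (C s)) * φ (cc (C s)) =
          (y - φ (cc (C s))) * (y + φ (cc (C s))) := by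
        rw [hy]
        ring
      rw [h1, map_mul]
      have h2 : L.O.valuation (y + φ (cc (C s))) ≤ 1 :=
        (Valuation.map_add _ _ _).trans (max_le hVy.le hVs)
      exact (mul_le_of_le_one_right' h2).trans_lt hys
    have h4 : L.O.valuation (φ (cc (C (c - s * s)))) < 1 := by
      have h1 : φ (cc (C (c - s * s))) =
          (φ u - φ (cc (C s)) * φ (cc (C s))) - φ (u - cc (C c)) := by
        unfold cc
        rw [C_sub, C_mul, map_sub, map_mul, map_sub, map_mul, map_sub]
        ring
      rw [h1]
      exact (Valuation.map_sub _ _ _).trans_lt (max_lt h3 huc)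
    refine ⟨s, ?_⟩
    by_contra hne
    exact h4.ne (hconst _ (sub_ne_zero.2 hne))
  · rintro ⟨s, hs⟩
    have hs0 : s ≠ 0 := by
      rintro rfl
      exact hc0 (by rw [hs, mul_zero])
    refine isSquare_of_near_sq L.toLoc (φ u) (φ (cc (C s))) (hconst s hs0) ?_
    have h1 : φ u - φ (cc (C s)) ^ 2 = φ (u - cc (C c)) := by
      rw [hs]
      unfold cc
      rw [C_mul, map_sub, map_mul, map_mul]
      ring
    rw [h1]
    exact huc

/-- At infinity the values of two nonzero polynomials agree modulo squares if and only if the degrees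
have the same parity. -/
theorem sameClass_placeInfty_iff (L : LocAt (placeInfty k)) {f g : k[X]} (hf : f ≠ 0)
    (hg : g ≠ 0) :
    SameClass L.O.valuation ((placeInfty k).toCompletion (cc f))
      ((placeInfty k).toCompletion (cc g)) ↔ Even (f.natDegree + g.natDegree) := by
  set φ := (placeInfty k).toCompletion with hφ
  have key : ∀ c : RatFunc k, c ≠ 0 → (L.O.valuation (φ (cc f) * φ (cc g)) =
      L.O.valuation (φ c) ^ 2 ↔ ((f.natDegree + g.natDegree : ℕ) : ℤ) = 2 * c.intDegree) := by
    intro c hc
    have hcc : cc f * cc g ≠ 0 := mul_ne_zero (cc_ne hf) (cc_ne hg)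
    have hc2 : c * c ≠ 0 := mul_ne_zero hc hc
    have hφc : φ (c * c) ≠ 0 := (_root_.map_ne_zero φ).2 hc2
    have h1 : L.O.valuation (φ (cc f) * φ (cc g)) = L.O.valuation (φ c) ^ 2 ↔
        L.O.valuation (φ (cc f * cc g / (c * c))) = 1 := by
      have hV : L.O.valuation (φ (c * c)) ≠ 0 := (Valuation.ne_zero_iff _).2 hφc
      rw [map_div₀, map_div₀, div_eq_one_iff_eq hV, map_mul φ, map_mul φ c c, map_mul _ (φ c), sq]
    rw [h1, eq_one_infty]
    have h2 : (cc f * cc g / (c * c)).intDegree =
        ((f.natDegree + g.natDegree : ℕ) : ℤ) - 2 * c.intDegree := by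
      rw [RatFunc.intDegree_div hcc hc2, RatFunc.intDegree_mul (cc_ne hf) (cc_ne hg),
        RatFunc.intDegree_mul hc hc]
      unfold cc
      rw [RatFunc.intDegree_polynomial, RatFunc.intDegree_polynomial]
      push_cast
      ring
    rw [h2]
    constructor
    · rintro ⟨-, h⟩
      omega
    · intro h
      exact ⟨div_ne_zero hcc hc2, by omega⟩
  constructor
  · rintro ⟨s, hs⟩
    have hs0 : s ≠ 0 := by
      rintro rfl
      rw [map_zero, zero_pow two_ne_zero, Valuation.zero_iff, mul_eq_zero] at hs
      rcases hs with h | h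
      · exact cc_ne hf ((map_eq_zero φ).1 h)
      · exact cc_ne hg ((map_eq_zero φ).1 h)
    obtain ⟨c, hc⟩ := L.dense s s hs0
    have hVc : L.O.valuation (φ c) = L.O.valuation s := by
      have h1 : φ c = s - (s - φ c) := by ring
      rw [h1]
      exact Valuation.map_sub_eq_of_lt_left _ hc
    have hc0 : c ≠ 0 := by
      rintro rfl
      rw [map_zero, map_zero] at hVc
      exact hs0 ((Valuation.zero_iff _).1 hVc.symm)
    rw [← hVc] at hs
    have h2 := (key c hc0).1 hs
    have h3 : Even ((f.natDegree + g.natDegree : ℕ) : ℤ) := ⟨c.intDegree, by rw [h2]; ring⟩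
    exact (Int.even_coe_nat _).1 h3
  · rintro ⟨n, hn⟩
    refine ⟨φ (RatFunc.X ^ n), (key _ (pow_ne_zero _ RatFunc.X_ne_zero)).2 ?_⟩
    rw [intDegree_X_pow, hn]
    push_cast
    ring

private theorem sgn_sq {x : k} (hx : x ≠ 0) : sgn x * sgn x = 1 := by
  unfold sgn
  rw [if_neg hx]
  split_ifs <;> norm_num

private theorem sgn_even {x : k} (hx : x ≠ 0) {n : ℕ} (hn : Even n) : sgn x ^ n = 1 := by
  obtain ⟨m, rfl⟩ := hn
  rw [pow_add, ← mul_pow, sgn_sq hx, one_pow]

private theorem sgn_odd {x : k} (hx : x ≠ 0) {n : ℕ} (hn : Odd n) : sgn x ^ n = sgn x := by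
  obtain ⟨m, rfl⟩ := hn
  rw [pow_succ, sgn_even hx (even_two_mul m), one_mul]

private theorem sgn_eq_one {x : k} (hx : x ≠ 0) : sgn x = 1 ↔ IsSquare x := by
  unfold sgn
  rw [if_neg hx]
  split_ifs with h
  · simp [h]
  · simp [h]

private theorem sgnInf_swap (a b e : k[X]) : sgnInf a b e = sgnInf b e a := by
  unfold sgnInf
  have h1 : a.natDegree * b.natDegree + b.natDegree * e.natDegree + a.natDegree * e.natDegree +
      a.natDegree + b.natDegree + e.natDegree = b.natDegree * e.natDegree +
      e.natDegree * a.natDegree + b.natDegree * a.natDegree + b.natDegree + e.natDegree +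
      a.natDegree := by ring
  rw [h1, add_comm a.natDegree e.natDegree, add_comm a.natDegree b.natDegree]
  ring

/-- one ramified coefficient -/
private theorem ram_infty [Finite k] (L : LocAt (placeInfty k)) {a b e : k[X]} (ha : a ≠ 0)
    (hb : b ≠ 0) (he : e ≠ 0) (h1 : ¬ Even (a.natDegree + b.natDegree))
    (h2 : Even (b.natDegree + e.natDegree)) :
    IsoAt (placeInfty k) (diagP a b e) ↔ sgnInf a b e = 1 := by
  have hS := locSq_of_loc L.toLoc
  rw [isoAt_diagP_iff, hS.iso_ram ((_root_.map_ne_zero _).2 (cc_ne ha)) ((_root_.map_ne_zero _).2 (cc_ne hb))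
    ((_root_.map_ne_zero _).2 (cc_ne he)) ((sameClass_placeInfty_iff L ha hb).not.2 h1)
    ((sameClass_placeInfty_iff L hb he).2 h2)]
  have e1 : -((placeInfty k).toCompletion (cc b) * (placeInfty k).toCompletion (cc e)) =
      (placeInfty k).toCompletion (cc (-(b * e))) := by
    unfold cc
    rw [map_neg (algebraMap k[X] (RatFunc k)), map_mul (algebraMap k[X] (RatFunc k)), map_neg,
      map_mul]
  have hbe : -(b * e) ≠ 0 := neg_ne_zero.2 (mul_ne_zero hb he)
  have hd : Even (-(b * e)).natDegree := by
    rwa [natDegree_neg, natDegree_mul hb he]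
  rw [e1, isSquare_placeInfty L hbe hd, leadingCoeff_neg, leadingCoeff_mul]
  have hlb : b.leadingCoeff ≠ 0 := leadingCoeff_ne_zero.2 hb
  have hle : e.leadingCoeff ≠ 0 := leadingCoeff_ne_zero.2 he
  have hla : a.leadingCoeff ≠ 0 := leadingCoeff_ne_zero.2 ha
  rw [← sgn_eq_one (neg_ne_zero.2 (mul_ne_zero hlb hle))]
  have e2 : -(b.leadingCoeff * e.leadingCoeff) = (-1) * (b.leadingCoeff * e.leadingCoeff) := by
    ring
  rw [e2, sgn_mul, sgn_mul]
  unfold sgnInf
  have hm1 : (-1 : k) ≠ 0 := neg_ne_zero.2 one_ne_zero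
  have o1 : Odd (a.natDegree * b.natDegree + b.natDegree * e.natDegree +
      a.natDegree * e.natDegree + a.natDegree + b.natDegree + e.natDegree) := by
    rw [← Nat.not_even_iff_odd]
    simp only [Nat.even_add, Nat.even_mul] at h1 h2 ⊢
    tauto
  have o2 : Odd (a.natDegree + e.natDegree) := by
    rw [← Nat.not_even_iff_odd]
    simp only [Nat.even_add] at h1 h2 ⊢
    tauto
  have o3 : Odd (a.natDegree + b.natDegree) := Nat.not_even_iff_odd.1 h1
  rw [sgn_odd hm1 o1, sgn_even hla h2, sgn_odd hlb o2, sgn_odd hle o3, mul_one, mul_assoc]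

theorem isoAt_infty_iff [Finite k] (L : LocAt (placeInfty k)) {a b e : k[X]} (ha : a ≠ 0)
    (hb : b ≠ 0) (he : e ≠ 0) :
    IsoAt (placeInfty k) (diagP a b e) ↔ sgnInf a b e = 1 := by
  by_cases h1 : Even (a.natDegree + b.natDegree)
  · by_cases h2 : Even (b.natDegree + e.natDegree)
    · -- all parities agree
      have hS := locSq_of_loc L.toLoc
      have hI : IsoAt (placeInfty k) (diagP a b e) := by
        rw [isoAt_diagP_iff]
        exact hS.iso_same ((_root_.map_ne_zero _).2 (cc_ne ha)) ((_root_.map_ne_zero _).2 (cc_ne hb))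
          ((_root_.map_ne_zero _).2 (cc_ne he)) ((sameClass_placeInfty_iff L ha hb).2 h1)
          ((sameClass_placeInfty_iff L hb he).2 h2)
      refine iff_of_true hI ?_
      unfold sgnInf
      have hm1 : (-1 : k) ≠ 0 := neg_ne_zero.2 one_ne_zero
      have o1 : Even (a.natDegree * b.natDegree + b.natDegree * e.natDegree +
          a.natDegree * e.natDegree + a.natDegree + b.natDegree + e.natDegree) := by
        simp only [Nat.even_add, Nat.even_mul] at h1 h2 ⊢
        tauto
      have o2 : Even (a.natDegree + e.natDegree) := by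
        simp only [Nat.even_add] at h1 h2 ⊢
        tauto
      rw [sgn_even hm1 o1, sgn_even (leadingCoeff_ne_zero.2 ha) h2,
        sgn_even (leadingCoeff_ne_zero.2 hb) o2, sgn_even (leadingCoeff_ne_zero.2 he) h1]
      norm_num
    · -- `e` is ramified
      rw [isoAt_diagP_rot, isoAt_diagP_rot, sgnInf_swap, sgnInf_swap]
      refine ram_infty L he ha hb ?_ h1
      intro h3
      apply h2
      simp only [Nat.even_add] at h1 h3 ⊢
      tauto
  · by_cases h2 : Even (b.natDegree + e.natDegree)
    · exact ram_infty L ha hb he h1 h2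
    · -- `b` is ramified
      rw [isoAt_diagP_rot, sgnInf_swap]
      refine ram_infty L hb he ha h2 ?_
      simp only [Nat.even_add] at h1 h2 ⊢
      tauto

end Pool.Agent.BSDP.R
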