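import Pool.Agent.Lib.BSDP.R.Defs

/-!
Module R.Loc. A henselian discretely valued field with finite residue field of odd characteristic has
the properties `LocSq`; squares and residue classes.

* `near`: for `V (u - 1) < 1` the polynomial `X ^ 2 - u` over `L.O` has the simple root `1` modulo the
  maximal ideal (`L.two`: `2` is a unit), `L.hens.is_henselian` (`HenselianLocalRing`) gives a root.
* `isSquare_of_near_sq`: `x / y²` is close to `1`.
* `isSquare_iff_residue`: if the residue class of `a` is the square of that of `b ∈ L.O` then `b` is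
  a unit and `V (a - b²) < 1`, use `isSquare_of_near_sq`; if `a = y²` in `F` then `V y = 1`, so
  `y ∈ L.O` (`ValuationSubring.valuation_lt_one_iff`, `IsLocalRing.residue_eq_zero_iff`,
  `ValuationSubring.valuation_eq_one_iff`).
* `locSq`: `unif` from `L.exists_zpow`, `unif_lt` from `L.pi_gen` (`pi = pi * 1`). `nonsq`: the residue
  classes of the units `x`, `y` are nonsquares of a finite field, so their product is a square
  (`FiniteField.isSquare_iff` in odd characteristic; the characteristic is not `2` by `L.two`);
  conclude by `isSquare_iff_residue`. `repr`: in the residue field `a x² + b y² = 1` is soluble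
  (`FiniteField.exists_root_sum_quadratic`, or pigeonhole); lift `x, y` to `L.O`:
  `a x² + b y² = u` with `V (u - 1) < 1`, `u = s²`, divide `x, y` by `s`.
-/

set_option autoImplicit false

open Polynomial Pool.Agent.BSDFF

namespace Pool.Agent.BSDP.R

variable {F : Type} [Field F] (L : Loc F)

theorem isSquare_of_near (u : F) (hu : L.O.valuation (u - 1) < 1) : IsSquare u := by
  have := L.hens
  have hmem : u ∈ L.O := by
    have h1 : u - 1 ∈ L.O := (L.O.valuation_le_one_iff _).mp hu.le
    have h2 := add_mem h1 L.O.one_mem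
    rwa [sub_add_cancel] at h2
  set U : L.O := ⟨u, hmem⟩ with hU
  have h2u : IsUnit (2 : L.O) := by
    rw [ValuationSubring.valuation_eq_one_iff]
    exact L.two
  obtain ⟨a, ha, -⟩ := HenselianLocalRing.is_henselian (X ^ 2 - C U : L.O[X]) (monic_X_pow_sub_C U two_ne_zero) 1
    (by
      rw [eval_sub, eval_pow, eval_X, eval_C, one_pow, ValuationSubring.valuation_lt_one_iff]
      have h3 : ((1 - U : L.O) : F) = -(u - 1) := by
        rw [hU]
        push_cast
        ring
      rw [h3, Valuation.map_neg]
      exact hu)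
    (by
      rw [derivative_sub, derivative_X_pow, derivative_C, sub_zero]
      simp only [Nat.cast_ofNat, eval_mul, eval_C, eval_pow, eval_X, one_pow, mul_one]
      exact h2u)
  refine ⟨(a : F), ?_⟩
  have h4 : a ^ 2 - U = 0 := by
    have h5 := ha
    rw [IsRoot.def, eval_sub, eval_pow, eval_X, eval_C] at h5
    exact h5
  have h6 : (a : F) ^ 2 - u = 0 := by
    have h7 := congrArg (Subtype.val) h4
    simpa [hU] using h7
  linear_combination -h6

/-- A unit `x` of `L` is a square if it is congruent to the square of an element. -/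
theorem isSquare_of_near_sq (x y : F) (hy : L.O.valuation y = 1)
    (hxy : L.O.valuation (x - y ^ 2) < 1) : IsSquare x := by
  have hy0 : y ≠ 0 := by
    rintro rfl
    rw [map_zero] at hy
    exact zero_ne_one hy
  have h1 : L.O.valuation (x / y ^ 2 - 1) < 1 := by
    have h2 : x / y ^ 2 - 1 = (x - y ^ 2) / y ^ 2 := by
      field_simp
    rw [h2, map_div₀, map_pow, hy, one_pow, div_one]
    exact hxy
  obtain ⟨s, hs⟩ := isSquare_of_near L _ h1
  refine ⟨s * y, ?_⟩
  have h3 : x = x / y ^ 2 * y ^ 2 := by
    field_simp
  rw [h3, hs]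
  ring

/-- A unit `a` is a square if and only if its residue class is a square. -/
theorem isSquare_iff_residue (a : L.O) (ha : IsUnit a) :
    IsSquare (a : F) ↔ IsSquare (IsLocalRing.residue L.O a) := by
  have hva : L.O.valuation (a : F) = 1 := (ValuationSubring.valuation_eq_one_iff _ a).mp ha
  constructor
  · rintro ⟨y, hy⟩
    have h1 : L.O.valuation y * L.O.valuation y = 1 := by
      rw [← map_mul, ← hy, hva]
    have h2 : L.O.valuation y ≤ 1 := by
      by_contra hcon
      rw [not_le] at hcon
      have h3 : (1 : L.O.ValueGroup) < L.O.valuation y * L.O.valuation y := by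
        calc (1 : L.O.ValueGroup) < L.O.valuation y := hcon
          _ = 1 * L.O.valuation y := (one_mul _).symm
          _ ≤ L.O.valuation y * L.O.valuation y := mul_le_mul_left hcon.le _
      exact absurd h1 h3.ne'
    have hmem : y ∈ L.O := (L.O.valuation_le_one_iff _).mp h2
    refine ⟨IsLocalRing.residue L.O ⟨y, hmem⟩, ?_⟩
    rw [← map_mul]
    congr 1
    exact Subtype.ext hy
  · rintro ⟨s, hs⟩
    obtain ⟨b, rfl⟩ := IsLocalRing.residue_surjective s
    have h1 : IsLocalRing.residue L.O (a - b * b) = 0 := by
      rw [map_sub, map_mul, hs, sub_self]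
    have h2 : L.O.valuation ((a - b * b : L.O) : F) < 1 := by
      rw [← ValuationSubring.valuation_lt_one_iff]
      exact (IsLocalRing.residue_eq_zero_iff _).mp h1
    have hb : IsUnit b := by
      have h3 : IsUnit (b * b) := by
        by_contra hcon
        have h4 : IsLocalRing.residue L.O (b * b) = 0 := by
          rw [IsLocalRing.residue_eq_zero_iff]
          exact (IsLocalRing.mem_maximalIdeal _).mpr hcon
        rw [map_mul, ← hs, IsLocalRing.residue_eq_zero_iff] at h4
        exact (IsLocalRing.mem_maximalIdeal _).mp h4 ha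
      exact isUnit_of_mul_isUnit_left h3
    have hvb : L.O.valuation (b : F) = 1 := (ValuationSubring.valuation_eq_one_iff _ b).mp hb
    refine isSquare_of_near_sq L (a : F) (b : F) hvb ?_
    have h5 : (a : F) - (b : F) ^ 2 = ((a - b * b : L.O) : F) := by
      push_cast
      ring
    rw [h5]
    exact h2

theorem locSq_of_loc : LocSq L.O.valuation L.pi := by
  have := L.fin
  let _ : Fintype (IsLocalRing.ResidueField L.O) := Fintype.ofFinite _
  classical
  have h2u : IsUnit (2 : L.O) := by
    rw [ValuationSubring.valuation_eq_one_iff]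
    exact L.two
  have hlift : ∀ x : F, L.O.valuation x = 1 → ∃ a : L.O, IsUnit a ∧ (a : F) = x := by
    intro x hx
    have hmem : x ∈ L.O := (L.O.valuation_le_one_iff _).mp hx.le
    exact ⟨⟨x, hmem⟩, (ValuationSubring.valuation_eq_one_iff _ _).mpr hx, rfl⟩
  have hres : ∀ a : L.O, IsUnit a → IsLocalRing.residue L.O a ≠ 0 := by
    intro a ha h
    rw [IsLocalRing.residue_eq_zero_iff] at h
    exact (IsLocalRing.mem_maximalIdeal _).mp h ha
  have hchar : ringChar (IsLocalRing.ResidueField L.O) ≠ 2 := by
    intro h
    have h1 : ((2 : ℕ) : IsLocalRing.ResidueField L.O) = 0 := by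
      rw [← h]
      exact ringChar.Nat.cast_ringChar
    apply hres 2 h2u
    rw [map_ofNat]
    exact_mod_cast h1
  refine ⟨L.pi_ne, (L.pi_gen L.pi).mpr ⟨1, L.O.one_mem, (mul_one _).symm⟩, ?_, L.two, ?_, ?_, ?_⟩
  · intro x hx
    obtain ⟨n, u, hu, hxu⟩ := L.exists_zpow x hx
    refine ⟨n, ?_⟩
    rw [hxu, map_mul, map_zpow₀, hu, mul_one]
  · exact fun u hu => isSquare_of_near L u hu
  · intro x y hx hy hxs hys
    obtain ⟨a, ha, rfl⟩ := hlift x hx
    obtain ⟨b, hb, rfl⟩ := hlift y hy
    rw [isSquare_iff_residue L a ha] at hxs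
    rw [isSquare_iff_residue L b hb] at hys
    have h1 : ((a : F) * (b : F)) = ((a * b : L.O) : F) := by push_cast; rfl
    rw [h1, isSquare_iff_residue L (a * b) (ha.mul hb), map_mul]
    rw [← quadraticChar_neg_one_iff_not_isSquare] at hxs hys
    rw [← quadraticChar_one_iff_isSquare (mul_ne_zero (hres a ha) (hres b hb)), map_mul, hxs, hys]
    norm_num
  · intro a b ha hb
    obtain ⟨a, ha', rfl⟩ := hlift a ha
    obtain ⟨b, hb', rfl⟩ := hlift b hb
    obtain ⟨x, y, hxy⟩ := FiniteField.exists_root_sum_quadratic
      (f := C (IsLocalRing.residue L.O a) * X ^ 2 + C 0 * X + C 0)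
      (g := C (IsLocalRing.residue L.O b) * X ^ 2 + C 0 * X + C (-1))
      (degree_quadratic (hres a ha')) (degree_quadratic (hres b hb')) (FiniteField.odd_card_of_char_ne_two hchar)
    obtain ⟨x, rfl⟩ := IsLocalRing.residue_surjective x
    obtain ⟨y, rfl⟩ := IsLocalRing.residue_surjective y
    have h1 : IsLocalRing.residue L.O (a * x ^ 2 + b * y ^ 2 - 1) = 0 := by
      simp only [eval_add, eval_mul, eval_C, eval_pow, eval_X] at hxy
      rw [map_sub, map_add, map_mul, map_mul, map_pow, map_pow, map_one]
      linear_combination hxy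
    have h2 : L.O.valuation ((a * x ^ 2 + b * y ^ 2 - 1 : L.O) : F) < 1 := by
      rw [← ValuationSubring.valuation_lt_one_iff]
      exact (IsLocalRing.residue_eq_zero_iff _).mp h1
    have h3 : L.O.valuation (((a : F) * (x : F) ^ 2 + (b : F) * (y : F) ^ 2) - 1) < 1 := by
      have h4 : ((a : F) * (x : F) ^ 2 + (b : F) * (y : F) ^ 2) - 1 = ((a * x ^ 2 + b * y ^ 2 - 1 : L.O) : F) := by
        push_cast
        ring
      rw [h4]
      exact h2
    obtain ⟨s, hs⟩ := isSquare_of_near L _ h3
    have hs0 : s ≠ 0 := by
      rintro rfl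
      rw [hs, mul_zero, zero_sub, Valuation.map_neg, map_one] at h3
      exact lt_irrefl _ h3
    refine ⟨(x : F) / s, (y : F) / s, ?_⟩
    field_simp
    rw [hs]
    ring

end Pool.Agent.BSDP.R
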