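import Pool.Agent.Lib.BSDP.R.Rec

/-!
Module R.Prod. The product formula for the Legendre symbols of a ternary form.

Proof. `chiP π (-(b e)) = chiP π (-1) * chiP π b * chiP π e` (`chiP_mul`); so the left side is
`∏_{π ∣ a} χ(-1) * ∏_{π ∣ b} χ(-1) * ∏_{π ∣ e} χ(-1)` times the three products
`∏_{π ∣ a} χ(b) ∏_{π ∣ b} χ(a)` etc. The latter are given by `prod_chiP` for `(b, a)`, `(e, b)`,
`(e, a)`; and `prod_chiP` for `f = -1`, `g = a` gives `∏_{π ∣ a} χ(-1) = sgn (-1) ^ deg a` (`-1` is a unit,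
squarefree, of degree `0`, `primesOf (-1)` is empty, leading coefficient `-1`; `sgn a.leadingCoeff ^ 0`).
Collect the exponents of `sgn (-1)`, `sgn α`, `sgn β`, `sgn ε`.
-/

set_option autoImplicit false

open Polynomial Pool.Agent.BSDFF

namespace Pool.Agent.BSDP.R

variable {k : Type} [Field k]

theorem prod_chiP_neg_one [Finite k] (h2 : (2 : k) ≠ 0) {a : k[X]} (ha : Squarefree a) :
    ∏ π ∈ primesOf a, chiP π (-1) = sgn (-1 : k) ^ a.natDegree := by
  have hu : IsUnit (-1 : k[X]) := isUnit_one.neg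
  have hc : IsCoprime (-1 : k[X]) a := isCoprime_one_left.neg_left
  have h := prod_chiP h2 hu.squarefree ha hc
  have he : primesOf (-1 : k[X]) = ∅ := by
    apply Finset.eq_empty_of_forall_notMem
    intro π hπ
    obtain ⟨_, h1, h3⟩ := (mem_primesOf (neg_ne_zero.2 one_ne_zero)).1 hπ
    exact h1.not_isUnit (isUnit_of_dvd_unit h3 hu)
  rw [he, Finset.prod_empty, mul_one, natDegree_neg, natDegree_one, leadingCoeff_neg, leadingCoeff_one, zero_mul,
    pow_zero, pow_zero, one_mul, mul_one] at h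
  exact h

private theorem prod_split [Finite k] (h2 : (2 : k) ≠ 0) {a b e : k[X]} (ha : Squarefree a) :
    ∏ π ∈ primesOf a, chiP π (-(b * e)) =
      sgn (-1 : k) ^ a.natDegree * (∏ π ∈ primesOf a, chiP π b) * (∏ π ∈ primesOf a, chiP π e) := by
  rw [← prod_chiP_neg_one h2 ha, ← Finset.prod_mul_distrib, ← Finset.prod_mul_distrib]
  refine Finset.prod_congr rfl fun π hπ => ?_
  obtain ⟨_, h1, _⟩ := (mem_primesOf ha.ne_zero).1 hπ
  rw [← chiP_mul h1, ← chiP_mul h1]
  congr 1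
  ring

/-- The product formula for the Legendre symbols. -/
theorem prod_sgn [Finite k] (h2 : (2 : k) ≠ 0) {a b e : k[X]} (ha : Squarefree a)
    (hb : Squarefree b) (he : Squarefree e) (hab : IsCoprime a b) (hbe : IsCoprime b e)
    (hae : IsCoprime a e) :
    (∏ π ∈ primesOf a, chiP π (-(b * e))) * (∏ π ∈ primesOf b, chiP π (-(a * e))) *
      (∏ π ∈ primesOf e, chiP π (-(a * b))) = sgnInf a b e := by
  rw [prod_split h2 ha, prod_split h2 hb, prod_split h2 he]
  have h1 := prod_chiP h2 hb ha hab.symm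
  have h3 := prod_chiP h2 he hb hbe.symm
  have h4 := prod_chiP h2 he ha hae.symm
  have h5 : sgn (-1 : k) ^ a.natDegree * (∏ π ∈ primesOf a, chiP π b) * (∏ π ∈ primesOf a, chiP π e) *
      (sgn (-1 : k) ^ b.natDegree * (∏ π ∈ primesOf b, chiP π a) * (∏ π ∈ primesOf b, chiP π e)) *
      (sgn (-1 : k) ^ e.natDegree * (∏ π ∈ primesOf e, chiP π a) * (∏ π ∈ primesOf e, chiP π b)) =
      sgn (-1 : k) ^ a.natDegree * sgn (-1 : k) ^ b.natDegree * sgn (-1 : k) ^ e.natDegree *
      ((∏ π ∈ primesOf a, chiP π b) * (∏ π ∈ primesOf b, chiP π a)) *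
      ((∏ π ∈ primesOf b, chiP π e) * (∏ π ∈ primesOf e, chiP π b)) *
      ((∏ π ∈ primesOf a, chiP π e) * (∏ π ∈ primesOf e, chiP π a)) := by ring
  rw [h5, h1, h3, h4, sgnInf]
  simp only [pow_add]
  rw [mul_comm b.natDegree a.natDegree, mul_comm e.natDegree b.natDegree, mul_comm e.natDegree a.natDegree]
  ring

end Pool.Agent.BSDP.R
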