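import Pool.Agent.Lib.BSDP.R.Char

/-!
Module R.Rec. The quadratic reciprocity law in `k[t]`.

* `eq_C_mul_prod`: a squarefree `f` is its leading coefficient times the product of its monic
  irreducible divisors (`UniqueFactorizationMonoid.normalizedFactors`,
  `UniqueFactorizationMonoid.squarefree_iff_nodup_normalizedFactors`,
  `Polynomial.leadingCoeff_mul_prod_normalizedFactors`).
* `prod_chiP_eq_resultant`: with `g' = ∏_{π ∣ g} π` (monic), `chiP_eq_resultant` and
  `Polynomial.resultant_prod_left`/`resultant_mul_left`: `∏_π chiP π f = sgn (resultant g' f)`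
  (note that the resultant in Mathlib has the degrees as optional arguments, by default the
  `natDegree`s; `resultant_prod_left` etc. have side conditions) and, for `f = C α * f'`:
  `resultant g' f = α ^ (deg g') * resultant g' f'` (`Polynomial.resultant_C_mul_right`).
* `prod_chiP`: the two products are `sgn (α ^ deg g * resultant g' f')` and
  `sgn (γ ^ deg f * resultant f' g')`; `Polynomial.resultant_comm`:
  `resultant f' g' = (-1) ^ (deg f * deg g) * resultant g' f'`, and the resultant is not zero
  (`Polynomial.resultant_ne_zero` for coprime polynomials), `sgn` of a nonzero square is `1`.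
-/

set_option autoImplicit false

open Polynomial Pool.Agent.BSDFF

namespace Pool.Agent.BSDP.R

variable {k : Type} [Field k]

private theorem prod_primesOf_eq {f : k[X]} (hf : Squarefree f) :
    (C f.leadingCoeff) * ∏ π ∈ primesOf f, π = f := by
  classical
  have hnodup : (UniqueFactorizationMonoid.normalizedFactors f).Nodup :=
    (UniqueFactorizationMonoid.squarefree_iff_nodup_normalizedFactors hf.ne_zero).1 hf
  have h1 : (∏ π ∈ (UniqueFactorizationMonoid.normalizedFactors f).toFinset, π) =
      (UniqueFactorizationMonoid.normalizedFactors f).prod := by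
    show ((UniqueFactorizationMonoid.normalizedFactors f).toFinset.val.map fun π => π).prod = _
    rw [Multiset.toFinset_val, Multiset.dedup_eq_self.2 hnodup, Multiset.map_id']
  have h2 := Polynomial.leadingCoeff_mul_prod_normalizedFactors f
  rw [← h1] at h2
  have h3 : primesOf f = (UniqueFactorizationMonoid.normalizedFactors f).toFinset := by
    unfold primesOf
    congr!
  rw [h3]
  exact h2

theorem eq_C_mul_prod {f : k[X]} (hf : Squarefree f) :
    f = C f.leadingCoeff * ∏ π ∈ primesOf f, π :=
  (prod_primesOf_eq hf).symm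

theorem natDegree_prod_primesOf {f : k[X]} (hf : Squarefree f) :
    (∏ π ∈ primesOf f, π).natDegree = f.natDegree := by
  conv_rhs => rw [eq_C_mul_prod hf]
  rw [natDegree_C_mul (leadingCoeff_ne_zero.2 hf.ne_zero)]

private theorem sgn_one : sgn (1 : k) = 1 := by
  classical
  rw [sgn, if_neg one_ne_zero, if_pos IsSquare.one]

private theorem sgn_pow [Finite k] (x : k) (n : ℕ) : sgn (x ^ n) = sgn x ^ n := by
  induction n with
  | zero => rw [pow_zero, pow_zero, sgn_one]
  | succ n ih => rw [pow_succ, pow_succ, sgn_mul, ih]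

private theorem sgn_prod [Finite k] {ι : Type} (s : Finset ι) (x : ι → k) :
    sgn (∏ i ∈ s, x i) = ∏ i ∈ s, sgn (x i) := by
  classical
  induction s using Finset.induction_on with
  | empty => rw [Finset.prod_empty, Finset.prod_empty, sgn_one]
  | insert a s ha ih => rw [Finset.prod_insert ha, Finset.prod_insert ha, sgn_mul, ih]

private theorem sgn_mul_self {x : k} (hx : x ≠ 0) : sgn x * sgn x = 1 := by
  classical
  rw [sgn, if_neg hx]
  split_ifs <;> norm_num

theorem prod_chiP_eq_resultant [Finite k] (h2 : (2 : k) ≠ 0) {f g : k[X]} (hf : Squarefree f)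
    (hg : Squarefree g) :
    ∏ π ∈ primesOf g, chiP π f =
      sgn (f.leadingCoeff ^ g.natDegree *
        resultant (∏ π ∈ primesOf g, π) (∏ π ∈ primesOf f, π)) := by
  have h1 : ∀ π ∈ primesOf g, chiP π f = sgn (resultant π f) := by
    intro π hπ
    obtain ⟨hm, hi, _⟩ := (mem_primesOf hg.ne_zero).1 hπ
    exact chiP_eq_resultant h2 hi hm f
  have h3 : ∏ π ∈ primesOf g, leadingCoeff π ≠ 0 := by
    rw [Finset.prod_ne_zero_iff]
    intro π hπ
    obtain ⟨hm, _, _⟩ := (mem_primesOf hg.ne_zero).1 hπ
    rw [hm.leadingCoeff]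
    exact one_ne_zero
  have h4 := resultant_prod_left (primesOf g) (fun π => π) f f.natDegree h3 le_rfl
  rw [Finset.prod_congr rfl h1, ← sgn_prod, ← h4]
  congr 1
  have h5 : f.natDegree = (∏ π ∈ primesOf f, π).natDegree := (natDegree_prod_primesOf hf).symm
  have h6 : resultant (∏ π ∈ primesOf g, π) f (∏ π ∈ primesOf g, π).natDegree f.natDegree =
      resultant (∏ π ∈ primesOf g, π) (C f.leadingCoeff * ∏ π ∈ primesOf f, π)
        (∏ π ∈ primesOf g, π).natDegree (∏ π ∈ primesOf f, π).natDegree := by
    rw [← eq_C_mul_prod hf, ← h5]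
  rw [h6, resultant_C_mul_right, natDegree_prod_primesOf hg]

/-- **Reciprocity** in `k[t]`. -/
theorem prod_chiP [Finite k] (h2 : (2 : k) ≠ 0) {f g : k[X]} (hf : Squarefree f)
    (hg : Squarefree g) (hc : IsCoprime f g) :
    (∏ π ∈ primesOf g, chiP π f) * (∏ π ∈ primesOf f, chiP π g) =
      sgn (-1 : k) ^ (f.natDegree * g.natDegree) * sgn f.leadingCoeff ^ g.natDegree *
        sgn g.leadingCoeff ^ f.natDegree := by
  have hdf : (∏ π ∈ primesOf f, π) ∣ f := ⟨C f.leadingCoeff, by rw [mul_comm, ← eq_C_mul_prod hf]⟩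
  have hdg : (∏ π ∈ primesOf g, π) ∣ g := ⟨C g.leadingCoeff, by rw [mul_comm, ← eq_C_mul_prod hg]⟩
  have hco : IsCoprime (∏ π ∈ primesOf g, π) (∏ π ∈ primesOf f, π) :=
    (hc.symm.of_isCoprime_of_dvd_left hdg).of_isCoprime_of_dvd_right hdf
  have hne : resultant (∏ π ∈ primesOf g, π) (∏ π ∈ primesOf f, π) ≠ 0 := resultant_ne_zero _ _ hco
  have hcomm : resultant (∏ π ∈ primesOf f, π) (∏ π ∈ primesOf g, π) =
      (-1) ^ (f.natDegree * g.natDegree) *
        resultant (∏ π ∈ primesOf g, π) (∏ π ∈ primesOf f, π) := by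
    rw [resultant_comm, natDegree_prod_primesOf hf, natDegree_prod_primesOf hg]
  rw [prod_chiP_eq_resultant h2 hf hg, prod_chiP_eq_resultant h2 hg hf, hcomm, sgn_mul, sgn_mul, sgn_mul,
    sgn_pow, sgn_pow, sgn_pow]
  have h1 := sgn_mul_self hne
  linear_combination (sgn (-1 : k) ^ (f.natDegree * g.natDegree) * sgn f.leadingCoeff ^ g.natDegree *
        sgn g.leadingCoeff ^ f.natDegree) * h1

end Pool.Agent.BSDP.R
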