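import Pool.Agent.Lib.BSDP.R.Form
import Pool.Agent.Lib.BSDP.R.Congr

/-!
Module R.Unimod. A unimodular ternary form is isotropic.

Proof of `exists_diag`. Let `O` be the ring of the elements of value at most `1` (all computations
stay in it; a matrix with entries in `O` has determinant in `O`).
(1) There is a vector `x` with coordinates in `{0, 1}` and `V (Q x) = 1`, `Q x = x ⬝ᵥ G x`: if some
`V (G i i) = 1` take `e_i`; otherwise all `V (G i i) < 1` and some `V (G i j) = 1` with `i ≠ j` (if all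
entries had value `< 1` so would the determinant), and `Q (e_i + e_j) = G i i + 2 G i j + G j j` has
value `1` as `V 2 = 1`.
(2) Take `x` as the first vector of a basis with entries in `O` and unit determinant (replace `e_i` by
`x`), then replace the other two basis vectors `y` by `y - (x ⬝ᵥ G y / Q x) x`: the Gram matrix becomes
`a ⊕ G'` with `V a = 1`, `G'` a symmetric `2 × 2` matrix with entries in `O` and
`V (det G') = 1`.
(3) The same for `G'`: some value on `e_1, e_2, e_1 + e_2` is a unit.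
It may be easier to do (2) and (3) with explicit matrices: first permute (a permutation matrix as `P`)
so that the vector found is `e_1` or `e_1 + e_2`. For a symmetric `G` with `V (G 0 0) = 1` take
`P = !![1, -G 0 1 / G 0 0, -G 0 2 / G 0 0; 0, 1, 0; 0, 0, 1]`. Only `P.det ≠ 0` is required in the end.
-/

set_option autoImplicit false

open Polynomial Pool.Agent.BSDFF

namespace Pool.Agent.BSDP.R

variable {F Γ : Type} [Field F] [LinearOrderedCommGroupWithZero Γ] {V : Valuation F Γ} {ϖ : F}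

/-- the conclusion -/
private def UnT (V : Valuation F Γ) (G : Matrix (Fin 3) (Fin 3) F) : Prop :=
  ∃ (P : Matrix (Fin 3) (Fin 3) F) (a b c : F), P.det ≠ 0 ∧ V a = 1 ∧ V b = 1 ∧ V c = 1 ∧
    P.transpose * G * P = Matrix.diagonal ![a, b, c]

private theorem unT_congr {G Q : Matrix (Fin 3) (Fin 3) F} (hQ : Q.det ≠ 0)
    (h : UnT V (Q.transpose * G * Q)) : UnT V G := by
  obtain ⟨P, a, b, c, hP, ha, hb, hc, hG⟩ := h
  refine ⟨Q * P, a, b, c, ?_, ha, hb, hc, ?_⟩
  · rw [Matrix.det_mul]
    exact mul_ne_zero hQ hP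
  · rw [← hG, Matrix.transpose_mul]
    simp only [Matrix.mul_assoc]

private theorem un_mul_le {A B : Matrix (Fin 3) (Fin 3) F} (hA : ∀ i j, V (A i j) ≤ 1)
    (hB : ∀ i j, V (B i j) ≤ 1) (i j : Fin 3) : V ((A * B) i j) ≤ 1 := by
  rw [Matrix.mul_apply]
  refine V.map_sum_le fun k _ => ?_
  rw [map_mul]
  exact mul_le_one' (hA i k) (hB k j)

private theorem un_sum {a b c : F} (h2 : V 2 = 1) (ha : V a < 1) (hb : V b = 1) (hc : V c < 1) :
    V (a + 2 * b + c) = 1 := by
  have h1 : V (2 * b) = 1 := by rw [map_mul, h2, hb, one_mul]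
  have h3 : V (a + 2 * b) = 1 := by
    rw [V.map_add_eq_of_lt_right (by rw [h1]; exact ha), h1]
  rw [V.map_add_eq_of_lt_left (by rw [h3]; exact hc), h3]

private theorem un_div_le {x y : F} (hx : V x ≤ 1) (hy : V y = 1) : V (x / y) ≤ 1 := by
  rw [map_div₀, hy, div_one]
  exact hx

/-- the binary case -/
private theorem un_two (h2 : V 2 = 1) {a d e f : F} (ha : V a = 1) (hd : V d ≤ 1) (he : V e ≤ 1)
    (hf : V f ≤ 1) (hdet : V (d * f - e ^ 2) = 1) :
    UnT V !![a, 0, 0; 0, d, e; 0, e, f] := by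
  rcases hd.lt_or_eq with hd1 | hd1
  · rcases hf.lt_or_eq with hf1 | hf1
    · -- `e` is a unit
      have he1 : V e = 1 := by
        refine le_antisymm he ?_
        by_contra hcon
        push Not at hcon
        have h3 : V (d * f - e ^ 2) < 1 := by
          refine V.map_sub_lt ?_ ?_
          · rw [map_mul]
            exact mul_lt_one_of_lt_of_le hd1 hf
          · rw [map_pow]
            exact pow_lt_one' hcon two_ne_zero
        exact absurd hdet h3.ne
      have hu : V (d + 2 * e + f) = 1 := un_sum h2 hd1 he1 hf1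
      have hu0 : d + 2 * e + f ≠ 0 := by
        intro h
        rw [h, map_zero] at hu
        exact zero_ne_one hu
      obtain ⟨u, hu'⟩ : ∃ u, u = d + 2 * e + f := ⟨_, rfl⟩
      rw [← hu'] at hu hu0
      refine ⟨!![1, 0, 0; 0, 1, -(e + f) / u; 0, 1, (d + e) / u], a, u, (d * f - e ^ 2) / u, ?_,
        ha, hu, ?_, ?_⟩
      · have h3 : (!![1, 0, 0; 0, 1, -(e + f) / u; 0, 1, (d + e) / u] :
            Matrix (Fin 3) (Fin 3) F).det = 1 := by
          rw [Matrix.det_fin_three]
          simp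
          field_simp
          linear_combination -hu'
        rw [h3]
        exact one_ne_zero
      · rw [map_div₀, hdet, hu, div_one]
      · ext i j
        fin_cases i <;> fin_cases j <;>
          simp [Matrix.mul_apply, Fin.sum_univ_three, Matrix.transpose_apply, Matrix.diagonal]
        · linear_combination -hu'
        · field_simp
          ring
        · field_simp
          ring
        · field_simp
          rw [hu']
          ring
    · have hf0 : f ≠ 0 := by
        intro h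
        rw [h, map_zero] at hf1
        exact zero_ne_one hf1
      refine ⟨!![1, 0, 0; 0, 1, 0; 0, -e / f, 1], a, (d * f - e ^ 2) / f, f, ?_, ha, ?_, hf1, ?_⟩
      · rw [Matrix.det_fin_three]
        simp
      · rw [map_div₀, hdet, hf1, div_one]
      · ext i j
        fin_cases i <;> fin_cases j <;>
          simp [Matrix.mul_apply, Fin.sum_univ_three, Matrix.transpose_apply, Matrix.diagonal]
        all_goals field_simp
        all_goals ring
  · have hd0 : d ≠ 0 := by
      intro h
      rw [h, map_zero] at hd1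
      exact zero_ne_one hd1
    refine ⟨!![1, 0, 0; 0, 1, -e / d; 0, 0, 1], a, d, (d * f - e ^ 2) / d, ?_, ha, hd1, ?_, ?_⟩
    · rw [Matrix.det_fin_three]
      simp
    · rw [map_div₀, hdet, hd1, div_one]
    · ext i j
      fin_cases i <;> fin_cases j <;>
        simp [Matrix.mul_apply, Fin.sum_univ_three, Matrix.transpose_apply, Matrix.diagonal]
      all_goals field_simp
      all_goals ring

/-- the case where the first diagonal entry is a unit -/
private theorem un_first (h2 : V 2 = 1) {G : Matrix (Fin 3) (Fin 3) F} (hs : G.IsSymm)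
    (hi : ∀ i j, V (G i j) ≤ 1) (hd : V G.det = 1) (h0 : V (G 0 0) = 1) : UnT V G := by
  have hg0 : G 0 0 ≠ 0 := by
    intro h
    rw [h, map_zero] at h0
    exact zero_ne_one h0
  have e10 : G 1 0 = G 0 1 := hs.apply 0 1
  have e20 : G 2 0 = G 0 2 := hs.apply 0 2
  have e21 : G 2 1 = G 1 2 := hs.apply 1 2
  refine unT_congr (Q := !![1, -G 0 1 / G 0 0, -G 0 2 / G 0 0; 0, 1, 0; 0, 0, 1]) ?_ ?_
  · rw [Matrix.det_fin_three]
    simp
  · have hQ : (!![1, -G 0 1 / G 0 0, -G 0 2 / G 0 0; 0, 1, 0; 0, 0, 1] :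
        Matrix (Fin 3) (Fin 3) F).transpose * G *
        !![1, -G 0 1 / G 0 0, -G 0 2 / G 0 0; 0, 1, 0; 0, 0, 1] =
        !![G 0 0, 0, 0; 0, G 1 1 - G 0 1 * G 0 1 / G 0 0, G 1 2 - G 0 1 * G 0 2 / G 0 0;
          0, G 1 2 - G 0 1 * G 0 2 / G 0 0, G 2 2 - G 0 2 * G 0 2 / G 0 0] := by
      ext i j
      fin_cases i <;> fin_cases j <;>
        simp [Matrix.mul_apply, Fin.sum_univ_three, Matrix.transpose_apply, e10, e20, e21]
      all_goals field_simp
      all_goals ring
    rw [hQ]
    have hle : ∀ i j : Fin 3, V (G 0 i * G 0 j / G 0 0) ≤ 1 := fun i j =>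
      un_div_le (by rw [map_mul]; exact mul_le_one' (hi 0 i) (hi 0 j)) h0
    refine un_two h2 h0 (V.map_sub_le (hi 1 1) (hle 1 1)) (V.map_sub_le (hi 1 2) (hle 1 2))
      (V.map_sub_le (hi 2 2) (hle 2 2)) ?_
    have h3 : (G 1 1 - G 0 1 * G 0 1 / G 0 0) * (G 2 2 - G 0 2 * G 0 2 / G 0 0) -
        (G 1 2 - G 0 1 * G 0 2 / G 0 0) ^ 2 = G.det / G 0 0 := by
      rw [Matrix.det_fin_three, e10, e20, e21]
      field_simp
      ring
    rw [h3, map_div₀, hd, h0, div_one]

/-- change of basis by a matrix with entries of value at most `1` and unit determinant -/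
private theorem un_step (h2 : V 2 = 1) {G : Matrix (Fin 3) (Fin 3) F} (hs : G.IsSymm)
    (hi : ∀ i j, V (G i j) ≤ 1) (hd : V G.det = 1) (Q : Matrix (Fin 3) (Fin 3) F)
    (hQi : ∀ i j, V (Q i j) ≤ 1) (hQd : V Q.det = 1)
    (h0 : V ((Q.transpose * G * Q) 0 0) = 1) : UnT V G := by
  have hQ0 : Q.det ≠ 0 := by
    intro h
    rw [h, map_zero] at hQd
    exact zero_ne_one hQd
  refine unT_congr hQ0 (un_first h2 ?_ ?_ ?_ h0)
  · unfold Matrix.IsSymm
    rw [Matrix.transpose_mul, Matrix.transpose_mul, Matrix.transpose_transpose, hs.eq,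
      Matrix.mul_assoc]
  · exact un_mul_le (un_mul_le (fun i j => hQi j i) hi) hQi
  · rw [Matrix.det_mul, Matrix.det_mul, Matrix.det_transpose, map_mul, map_mul, hQd, hd, one_mul,
      one_mul]

private theorem un_le01 {Q : Matrix (Fin 3) (Fin 3) F} (h : ∀ i j, Q i j = 0 ∨ Q i j = 1)
    (i j : Fin 3) : V (Q i j) ≤ 1 := by
  rcases h i j with h | h
  · rw [h, map_zero]
    exact zero_le_one
  · rw [h, map_one]

/-- A symmetric matrix with entries of value at most `1` and determinant of value `1` is congruent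
to a diagonal matrix with unit entries. -/
theorem LocSq.exists_diag (h : LocSq V ϖ) (G : Matrix (Fin 3) (Fin 3) F) (hs : G.IsSymm)
    (hi : ∀ i j, V (G i j) ≤ 1) (hd : V G.det = 1) :
    ∃ (P : Matrix (Fin 3) (Fin 3) F) (a b c : F), P.det ≠ 0 ∧ V a = 1 ∧ V b = 1 ∧ V c = 1 ∧
      P.transpose * G * P = Matrix.diagonal ![a, b, c] := by
  have h2 := h.two
  have e10 : G 1 0 = G 0 1 := hs.apply 0 1
  have e20 : G 2 0 = G 0 2 := hs.apply 0 2
  have e21 : G 2 1 = G 1 2 := hs.apply 1 2
  rcases (hi 0 0).lt_or_eq with h00 | h00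
  swap
  · exact un_first h2 hs hi hd h00
  rcases (hi 1 1).lt_or_eq with h11 | h11
  swap
  · refine un_step h2 hs hi hd !![0, 1, 0; 1, 0, 0; 0, 0, 1] (un_le01 fun i j => ?_) ?_ ?_
    · fin_cases i <;> fin_cases j <;> simp
    · rw [Matrix.det_fin_three]
      simp
    · have : (Matrix.transpose !![0, 1, 0; 1, 0, 0; 0, 0, 1] * G * !![0, 1, 0; 1, 0, 0; 0, 0, 1] :
          Matrix (Fin 3) (Fin 3) F) 0 0 = G 1 1 := by
        simp [Matrix.mul_apply, Fin.sum_univ_three, Matrix.transpose_apply]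
      rw [this, h11]
  rcases (hi 2 2).lt_or_eq with h22 | h22
  swap
  · refine un_step h2 hs hi hd !![0, 0, 1; 0, 1, 0; 1, 0, 0] (un_le01 fun i j => ?_) ?_ ?_
    · fin_cases i <;> fin_cases j <;> simp
    · rw [Matrix.det_fin_three]
      simp
    · have : (Matrix.transpose !![0, 0, 1; 0, 1, 0; 1, 0, 0] * G * !![0, 0, 1; 0, 1, 0; 1, 0, 0] :
          Matrix (Fin 3) (Fin 3) F) 0 0 = G 2 2 := by
        simp [Matrix.mul_apply, Fin.sum_univ_three, Matrix.transpose_apply]
      rw [this, h22]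
  rcases (hi 0 1).lt_or_eq with h01 | h01
  swap
  · refine un_step h2 hs hi hd !![1, 0, 0; 1, 1, 0; 0, 0, 1] (un_le01 fun i j => ?_) ?_ ?_
    · fin_cases i <;> fin_cases j <;> simp
    · rw [Matrix.det_fin_three]
      simp
    · have : (Matrix.transpose !![1, 0, 0; 1, 1, 0; 0, 0, 1] * G * !![1, 0, 0; 1, 1, 0; 0, 0, 1] :
          Matrix (Fin 3) (Fin 3) F) 0 0 = G 0 0 + 2 * G 0 1 + G 1 1 := by
        simp [Matrix.mul_apply, Fin.sum_univ_three, Matrix.transpose_apply, e10]
        ring
      rw [this]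
      exact un_sum h2 h00 h01 h11
  rcases (hi 0 2).lt_or_eq with h02 | h02
  swap
  · refine un_step h2 hs hi hd !![1, 0, 0; 0, 1, 0; 1, 0, 1] (un_le01 fun i j => ?_) ?_ ?_
    · fin_cases i <;> fin_cases j <;> simp
    · rw [Matrix.det_fin_three]
      simp
    · have : (Matrix.transpose !![1, 0, 0; 0, 1, 0; 1, 0, 1] * G * !![1, 0, 0; 0, 1, 0; 1, 0, 1] :
          Matrix (Fin 3) (Fin 3) F) 0 0 = G 0 0 + 2 * G 0 2 + G 2 2 := by
        simp [Matrix.mul_apply, Fin.sum_univ_three, Matrix.transpose_apply, e20]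
        ring
      rw [this]
      exact un_sum h2 h00 h02 h22
  rcases (hi 1 2).lt_or_eq with h12 | h12
  swap
  · refine un_step h2 hs hi hd !![0, 1, 0; 1, 0, 1; 1, 0, 0] (un_le01 fun i j => ?_) ?_ ?_
    · fin_cases i <;> fin_cases j <;> simp
    · rw [Matrix.det_fin_three]
      simp
    · have : (Matrix.transpose !![0, 1, 0; 1, 0, 1; 1, 0, 0] * G * !![0, 1, 0; 1, 0, 1; 1, 0, 0] :
          Matrix (Fin 3) (Fin 3) F) 0 0 = G 1 1 + 2 * G 1 2 + G 2 2 := by
        simp [Matrix.mul_apply, Fin.sum_univ_three, Matrix.transpose_apply, e21]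
        ring
      rw [this]
      exact un_sum h2 h11 h12 h22
  · exfalso
    have hall : ∀ i j, V (G i j) < 1 := by
      intro i j
      fin_cases i <;> fin_cases j
      · exact h00
      · exact h01
      · exact h02
      · exact e10 ▸ h01
      · exact h11
      · exact h12
      · exact e20 ▸ h02
      · exact e21 ▸ h12
      · exact h22
    have h3 : ∀ a b c d e f : Fin 3, V (G a b * G c d * G e f) < 1 := by
      intro a b c d e f
      rw [map_mul, map_mul]
      exact mul_lt_one_of_lt_of_le (mul_lt_one_of_lt_of_le (hall a b) (hi c d)) (hi e f)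
    have h4 : V G.det < 1 := by
      rw [Matrix.det_fin_three]
      exact V.map_sub_lt (V.map_add_lt (V.map_add_lt (V.map_sub_lt (V.map_sub_lt (h3 _ _ _ _ _ _)
        (h3 _ _ _ _ _ _)) (h3 _ _ _ _ _ _)) (h3 _ _ _ _ _ _)) (h3 _ _ _ _ _ _)) (h3 _ _ _ _ _ _)
    exact absurd hd h4.ne

theorem LocSq.iso_unimodular (h : LocSq V ϖ) (G : Matrix (Fin 3) (Fin 3) F) (hs : G.IsSymm)
    (hi : ∀ i j, V (G i j) ≤ 1) (hd : V G.det = 1) : Isotropic G := by
  obtain ⟨P, a, b, c, hP, ha, hb, hc, hG⟩ := h.exists_diag G hs hi hd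
  have h1 : Isotropic ((1 : F) • (P.transpose * G * P)) := by
    rw [one_smul, hG, iso_diagonal_iff]
    refine h.iso_same ?_ ?_ ?_ ⟨1, ?_⟩ ⟨1, ?_⟩
    · rintro rfl; simp at ha
    · rintro rfl; simp at hb
    · rintro rfl; simp at hc
    · rw [map_mul, ha, hb]; simp
    · rw [map_mul, hb, hc]; simp
  exact (isotropic_congr G P hP 1 one_ne_zero).mp h1

end Pool.Agent.BSDP.R
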