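import Pool.Agent.Lib.BSDP.R.Diag
import Pool.Agent.Lib.BSDP.R.Unimod
import Pool.Agent.Lib.BSDP.R.Prod
import Pool.Agent.Lib.BSDP.R.Fin
import Pool.Agent.Lib.BSDP.R.Inf

/-!
Module R.Recip. A ternary quadratic form over `k(t)` which is isotropic at all closed points but one
is isotropic at this point too.

Proof of `reciprocity_of_dvd` and `reciprocity_diagP`. For `π` monic irreducible dividing `a` (then
`π ∤ b`, `π ∤ e`) the factor `chiP π (-(b e))` of `prod_sgn` is `1` or `-1`, and it is `1` iff the form is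
isotropic at `placeOf π` (`isoAt_iff_of_dvd`); similarly for `π ∣ b` (form `diagP b a e`,
`isoAt_diagP_swap`) and `π ∣ e` (`isoAt_diagP_rot` twice); `sgnInf a b e = 1` iff the form is isotropic
at infinity (`isoAt_infty_iff`). By `place_cases`:
* `v₀` infinite: by `H` all factors on the left of `prod_sgn` are `1` (`placeOf π ≠ placeInfty`:
  `X_mem_placeOf`, `X_not_mem_placeInfty`), so `sgnInf = 1`.
* `v₀ = placeOf π₀` with `π₀ ∤ a b e`: `isoAt_of_not_dvd`.
* `v₀ = placeOf π₀` with `π₀ ∣ a` (or `b`, or `e`, by the symmetries): by `H` `sgnInf = 1` and all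
  factors for `π ≠ π₀` are `1` (`placeOf_injective`), so the factor of `π₀` is `1`
  (`Finset.mul_prod_erase`).
-/

set_option autoImplicit false

open Polynomial Pool.Agent.BSDFF

namespace Pool.Agent.BSDP.R

variable {k : Type} [Field k]

/-- every closed point of the projective line is `∞` or given by a monic irreducible polynomial -/
theorem place_cases (v : Place k (RatFunc k)) :
    v = placeInfty k ∨ ∃ (π : k[X]) (hπ : Irreducible π), π.Monic ∧ v = placeOf π hπ := by
  by_cases hX : RatFunc.X ∈ v.ring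
  · obtain ⟨π, hm, hπ, hn⟩ := exists_irreducible_nonunit v hX
    exact Or.inr ⟨π, hπ, hm, eq_placeOf v hX hπ hn⟩
  · exact Or.inl (eq_placeInfty v hX)

private theorem recip_not_dvd {a b π : k[X]} (h : IsCoprime a b) (hπ : Irreducible π) (ha : π ∣ a) :
    ¬ π ∣ b := fun hb => hπ.not_isUnit (h.isUnit_of_dvd' ha hb)

private theorem recip_infty_ne {π : k[X]} (hπ : Irreducible π) : placeInfty k ≠ placeOf π hπ := by
  intro h
  apply X_not_mem_placeInfty (k := k)
  rw [h]
  exact X_mem_placeOf π hπ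

private theorem recip_fst (loc : ∀ w : Place k (RatFunc k), LocAt w)
    {a b e : k[X]} (ha : Squarefree a) (hab : IsCoprime a b) (hae : IsCoprime a e) {π : k[X]}
    (hπ : Irreducible π) (hd : π ∣ a) :
    IsoAt (placeOf π hπ) (diagP a b e) ↔ chiP π (-(b * e)) = 1 :=
  isoAt_iff_of_dvd hπ (loc _) ha hd (recip_not_dvd hab hπ hd) (recip_not_dvd hae hπ hd)

private theorem recip_snd (loc : ∀ w : Place k (RatFunc k), LocAt w)
    {a b e : k[X]} (hb : Squarefree b) (hab : IsCoprime a b) (hbe : IsCoprime b e) {π : k[X]}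
    (hπ : Irreducible π) (hd : π ∣ b) :
    IsoAt (placeOf π hπ) (diagP a b e) ↔ chiP π (-(a * e)) = 1 := by
  rw [isoAt_diagP_swap]
  exact recip_fst loc hb hab.symm hbe hπ hd

private theorem recip_trd (loc : ∀ w : Place k (RatFunc k), LocAt w)
    {a b e : k[X]} (he : Squarefree e) (hae : IsCoprime a e) (hbe : IsCoprime b e) {π : k[X]}
    (hπ : Irreducible π) (hd : π ∣ e) :
    IsoAt (placeOf π hπ) (diagP a b e) ↔ chiP π (-(a * b)) = 1 := by
  rw [isoAt_diagP_rot, isoAt_diagP_rot]
  exact recip_fst loc he hae.symm hbe.symm hπ hd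

theorem reciprocity_of_dvd [Finite k] (h2 : (2 : k) ≠ 0) (loc : ∀ w : Place k (RatFunc k), LocAt w)
    {a b e : k[X]} (ha : Squarefree a) (hb : Squarefree b) (he : Squarefree e)
    (hab : IsCoprime a b) (hbe : IsCoprime b e) (hae : IsCoprime a e) {π₀ : k[X]} (hm : π₀.Monic)
    (hπ : Irreducible π₀) (hd : π₀ ∣ a)
    (H : ∀ v : Place k (RatFunc k), v ≠ placeOf π₀ hπ → IsoAt v (diagP a b e)) :
    IsoAt (placeOf π₀ hπ) (diagP a b e) := by
  classical
  have hinf : sgnInf a b e = 1 :=
    (isoAt_infty_iff (loc (placeInfty k)) ha.ne_zero hb.ne_zero he.ne_zero).1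
      (H (placeInfty k) (recip_infty_ne hπ))
  have hB : ∏ π ∈ primesOf b, chiP π (-(a * e)) = 1 := by
    refine Finset.prod_eq_one fun π hp => ?_
    obtain ⟨h1, h3, h4⟩ := (mem_primesOf hb.ne_zero).1 hp
    refine (recip_snd loc hb hab hbe h3 h4).1 (H _ fun hv => ?_)
    have h5 := placeOf_injective _ _ h1 hm hv
    rw [h5] at h4
    exact recip_not_dvd hab hπ hd h4
  have hE : ∏ π ∈ primesOf e, chiP π (-(a * b)) = 1 := by
    refine Finset.prod_eq_one fun π hp => ?_
    obtain ⟨h1, h3, h4⟩ := (mem_primesOf he.ne_zero).1 hp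
    refine (recip_trd loc he hae hbe h3 h4).1 (H _ fun hv => ?_)
    have h5 := placeOf_injective _ _ h1 hm hv
    rw [h5] at h4
    exact recip_not_dvd hae hπ hd h4
  have hmem : π₀ ∈ primesOf a := (mem_primesOf ha.ne_zero).2 ⟨hm, hπ, hd⟩
  have hA : ∏ π ∈ (primesOf a).erase π₀, chiP π (-(b * e)) = 1 := by
    refine Finset.prod_eq_one fun π hp => ?_
    obtain ⟨hne, hp'⟩ := Finset.mem_erase.1 hp
    obtain ⟨h1, h3, h4⟩ := (mem_primesOf ha.ne_zero).1 hp'
    exact (recip_fst loc ha hab hae h3 h4).1 (H _ fun hv => hne (placeOf_injective _ _ h1 hm hv))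
  have h := prod_sgn h2 ha hb he hab hbe hae
  rw [hB, hE, mul_one, mul_one, hinf, ← Finset.mul_prod_erase _ _ hmem, hA, mul_one] at h
  exact (recip_fst loc ha hab hae hπ hd).2 h

/-- **Reciprocity for the diagonal forms.** -/
theorem reciprocity_diagP [Finite k] (h2 : (2 : k) ≠ 0) (loc : ∀ w : Place k (RatFunc k), LocAt w)
    {a b e : k[X]} (ha : Squarefree a) (hb : Squarefree b) (he : Squarefree e)
    (hab : IsCoprime a b) (hbe : IsCoprime b e) (hae : IsCoprime a e) (v₀ : Place k (RatFunc k))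
    (H : ∀ v : Place k (RatFunc k), v ≠ v₀ → IsoAt v (diagP a b e)) :
    IsoAt v₀ (diagP a b e) := by
  classical
  rcases place_cases v₀ with rfl | ⟨π₀, hπ, hm, rfl⟩
  · refine (isoAt_infty_iff (loc (placeInfty k)) ha.ne_zero hb.ne_zero he.ne_zero).2 ?_
    rw [← prod_sgn h2 ha hb he hab hbe hae]
    have hA : ∏ π ∈ primesOf a, chiP π (-(b * e)) = 1 := by
      refine Finset.prod_eq_one fun π hp => ?_
      obtain ⟨h1, h3, h4⟩ := (mem_primesOf ha.ne_zero).1 hp
      exact (recip_fst loc ha hab hae h3 h4).1 (H _ (recip_infty_ne h3).symm)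
    have hB : ∏ π ∈ primesOf b, chiP π (-(a * e)) = 1 := by
      refine Finset.prod_eq_one fun π hp => ?_
      obtain ⟨h1, h3, h4⟩ := (mem_primesOf hb.ne_zero).1 hp
      exact (recip_snd loc hb hab hbe h3 h4).1 (H _ (recip_infty_ne h3).symm)
    have hE : ∏ π ∈ primesOf e, chiP π (-(a * b)) = 1 := by
      refine Finset.prod_eq_one fun π hp => ?_
      obtain ⟨h1, h3, h4⟩ := (mem_primesOf he.ne_zero).1 hp
      exact (recip_trd loc he hae hbe h3 h4).1 (H _ (recip_infty_ne h3).symm)
    rw [hA, hB, hE, mul_one, mul_one]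
  · by_cases hda : π₀ ∣ a
    · exact reciprocity_of_dvd h2 loc ha hb he hab hbe hae hm hπ hda H
    · by_cases hdb : π₀ ∣ b
      · rw [isoAt_diagP_swap]
        exact reciprocity_of_dvd h2 loc hb ha he hab.symm hae hbe hm hπ hdb
          fun v hv => (isoAt_diagP_swap v a b e).1 (H v hv)
      · by_cases hde : π₀ ∣ e
        · rw [isoAt_diagP_rot, isoAt_diagP_rot]
          exact reciprocity_of_dvd h2 loc he ha hb hae.symm hab hbe.symm hm hπ hde
            fun v hv => (isoAt_diagP_rot v b e a).1 ((isoAt_diagP_rot v a b e).1 (H v hv))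
        · exact isoAt_of_not_dvd hπ (loc _) hda hdb hde

/-- A form which is unimodular is isotropic. -/
theorem isotropic_unimodular {F : Type} [Field F] (L : Loc F) (G : Matrix (Fin 3) (Fin 3) F)
    (hs : G.IsSymm) (hi : ∀ i j, G i j ∈ L.O) (hd : L.O.valuation G.det = 1) : Isotropic G :=
  (locSq_of_loc L).iso_unimodular G hs
    (fun i j => (ValuationSubring.valuation_le_one_iff _ _).mpr (hi i j)) hd

end Pool.Agent.BSDP.R

namespace Pool.Agent.BSDP

/-- **Reciprocity.** A ternary quadratic form over `k(t)` which is isotropic over the completions at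
all closed points but one is isotropic over the completion at this point too. -/
theorem reciprocity {k : Type} [Field k] [Finite k] (h2 : (2 : k) ≠ 0)
    (loc : ∀ w : BSDFF.Place k (RatFunc k), LocAt w) (G : Matrix (Fin 3) (Fin 3) (RatFunc k))
    (hG : G.IsSymm) (hdet : G.det ≠ 0) (v : BSDFF.Place k (RatFunc k))
    (h : ∀ w, w ≠ v → Isotropic (G.map w.toCompletion)) : Isotropic (G.map v.toCompletion) := by
  obtain ⟨P, c, a, b, e, hP, hc, ha, hb, he, hab, hbe, hae, hdiag⟩ :=
    R.exists_coprime_diag h2 G hG hdet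
  change R.IsoAt v G
  rw [← R.IsoAt.congr v G P hP c hc, hdiag]
  refine R.reciprocity_diagP h2 loc ha hb he hab hbe hae v fun w hw => ?_
  have h1 := (R.IsoAt.congr w G P hP c hc).mpr (h w hw)
  rw [hdiag] at h1
  exact h1

end Pool.Agent.BSDP
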